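import Pool.Agent.Run7.h199.FD.Prod

/-!
# The fifty percent law
-/

set_option autoImplicit false
set_option linter.unusedSectionVars false

open CategoryTheory Limits MonoidalCategory Filter
open Pool.Agent.Y112.SR Pool.Agent.Y112.KD Pool.Agent.R484.NC

namespace Run7.h199.FD

universe v u w

section

variable {C : Type u} [Category.{v} C] [Preadditive C] [Linear ℚ C] [MonoidalCategory C]
  [MonoidalPreadditive C] [MonoidalLinear ℚ C] [SymmetricCategory C] [RightRigidCategory C]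
  [HasBinaryBiproducts C] {K : Type w} [Field K]

/-- `2 c(M^n) ≤ b^n + (b - 2)^n`, or the same with `n + 1` in the place of `n`, where `b` is the
dimension of the realisation of `M`. -/
def HalfAt (R : SuperRealisation C K) (E : ℤˣ → C → Prop) (M : C) (n : ℕ) : Prop :=
  2 * cdim R E (pow M n) ≤ totalDim R M ^ n + (totalDim R M - 2) ^ n ∨
    2 * cdim R E (pow M (n + 1)) ≤ totalDim R M ^ (n + 1) + (totalDim R M - 2) ^ (n + 1)

/-- `c(M) ≥ (1 / 2 + f(b(M))) b(M)`. -/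
def MoreThanHalf (R : SuperRealisation C K) (E : ℤˣ → C → Prop) (f : ℕ → ℝ) (M : C) : Prop :=
  (1 / 2 + f (totalDim R M)) * totalDim R M ≤ cdim R E M

variable {E : ℤˣ → C → Prop} {s t : ℤˣ} {M N : C} {R : SuperRealisation C K}

/-- The sum of two complementary direct summands. -/
noncomputable def Ret.add (hE : FDClass R E) (a b : Ret E s M) (h1 : b.i ≫ a.r = 0)
    (h2 : a.i ≫ b.r = 0) : Ret E s M :=
  ⟨a.P ⊞ b.P, biprod.desc a.i b.i, biprod.lift a.r b.r, hE.sum s _ _ a.mem b.mem, by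
    apply biprod.hom_ext
    · apply biprod.hom_ext'
      · simp [a.ir]
      · simp [h1]
    · apply biprod.hom_ext'
      · simp [h2]
      · simp [b.ir]⟩

lemma Ret.add_e (hE : FDClass R E) (a b : Ret E s M) (h1 : b.i ≫ a.r = 0)
    (h2 : a.i ≫ b.r = 0) : (a.add hE b h1 h2).e = a.e + b.e := by
  change biprod.lift a.r b.r ≫ biprod.desc a.i b.i = _
  rw [biprod.lift_desc]
  rfl

/-- The tensor product of direct summands. -/
noncomputable def Ret.tensor (hE : FDClass R E) {u' : ℤˣ} (hu : s * t = u') (a : Ret E s M)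
    (b : Ret E t N) : Ret E u' (M ⊗ N) :=
  ⟨a.P ⊗ b.P, a.i ⊗ₘ b.i, a.r ⊗ₘ b.r, hu ▸ hE.tensor s t _ _ a.mem b.mem, by
    rw [MonoidalCategory.tensorHom_comp_tensorHom, a.ir, b.ir, MonoidalCategory.id_tensorHom_id]⟩

lemma Ret.tensor_e (hE : FDClass R E) {u' : ℤˣ} (hu : s * t = u') (a : Ret E s M) (b : Ret E t N) :
    (a.tensor hE hu b).e = (a.e ⊗ₘ b.e) := by
  change (a.r ⊗ₘ b.r) ≫ (a.i ⊗ₘ b.i) = _
  rw [MonoidalCategory.tensorHom_comp_tensorHom]
  rfl

lemma tensor_orth {P P' Q Q' : C} {i : P ⟶ M} {i' : P' ⟶ N} {r : M ⟶ Q} {r' : N ⟶ Q'}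
    (h : i ≫ r = 0 ∨ i' ≫ r' = 0) : (i ⊗ₘ i') ≫ (r ⊗ₘ r') = 0 := by
  rw [MonoidalCategory.tensorHom_comp_tensorHom]
  rcases h with h | h
  · rw [h, MonoidalPreadditive.zero_tensor]
  · rw [h, MonoidalPreadditive.tensor_zero]

lemma Ret.tensor_orth (hE : FDClass R E) {s' t' u' u'' : ℤˣ} (hu : s * t = u') (hu' : s' * t' = u'')
    (a : Ret E s M) (b : Ret E t N) (a' : Ret E s' M) (b' : Ret E t' N)
    (h : a.i ≫ a'.r = 0 ∨ b.i ≫ b'.r = 0) :
    (a.tensor hE hu b).i ≫ (a'.tensor hE hu' b').r = 0 := Run7.h199.FD.tensor_orth h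

lemma Ret.add_orth (hE : FDClass R E) {a b : Ret E s M} {c d : Ret E t M} (h1 : b.i ≫ a.r = 0)
    (h2 : a.i ≫ b.r = 0) (h3 : d.i ≫ c.r = 0) (h4 : c.i ≫ d.r = 0) (h5 : a.i ≫ c.r = 0)
    (h6 : a.i ≫ d.r = 0) (h7 : b.i ≫ c.r = 0) (h8 : b.i ≫ d.r = 0) :
    (a.add hE b h1 h2).i ≫ (c.add hE d h3 h4).r = 0 := by
  change biprod.desc a.i b.i ≫ biprod.lift c.r d.r = 0
  apply biprod.hom_ext
  · apply biprod.hom_ext'
    · simp [h5]
    · simp [h7]
  · apply biprod.hom_ext'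
    · simp [h6]
    · simp [h8]

/-- The tensor product of direct summands. -/
noncomputable def Part.tensor (hE : FDClass R E) (p : Part E M) (q : Part E N) : Part E (M ⊗ N) where
  ev := (p.ev.tensor hE (one_mul 1) q.ev).add hE (p.od.tensor hE (by norm_num) q.od)
    (Ret.tensor_orth hE _ _ _ _ _ _ (Or.inl p.orth₂)) (Ret.tensor_orth hE _ _ _ _ _ _ (Or.inl p.orth₁))
  od := (p.ev.tensor hE (one_mul (-1)) q.od).add hE (p.od.tensor hE (mul_one (-1)) q.ev)
    (Ret.tensor_orth hE _ _ _ _ _ _ (Or.inl p.orth₂)) (Ret.tensor_orth hE _ _ _ _ _ _ (Or.inl p.orth₁))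
  orth₁ := Ret.add_orth hE _ _ _ _ (Ret.tensor_orth hE _ _ _ _ _ _ (Or.inr q.orth₁))
    (Ret.tensor_orth hE _ _ _ _ _ _ (Or.inl p.orth₁)) (Ret.tensor_orth hE _ _ _ _ _ _ (Or.inl p.orth₂))
    (Ret.tensor_orth hE _ _ _ _ _ _ (Or.inr q.orth₂))
  orth₂ := Ret.add_orth hE _ _ _ _ (Ret.tensor_orth hE _ _ _ _ _ _ (Or.inr q.orth₂))
    (Ret.tensor_orth hE _ _ _ _ _ _ (Or.inl p.orth₁)) (Ret.tensor_orth hE _ _ _ _ _ _ (Or.inl p.orth₂))
    (Ret.tensor_orth hE _ _ _ _ _ _ (Or.inr q.orth₁))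

lemma Part.tensor_e (hE : FDClass R E) (p : Part E M) (q : Part E N) :
    (p.tensor hE q).e = (p.e ⊗ₘ q.e) := by
  have h1 : (p.tensor hE q).ev.e = (p.ev.tensor hE (one_mul 1) q.ev).e +
      (p.od.tensor hE (by norm_num : (-1 : ℤˣ) * (-1) = 1) q.od).e := Ret.add_e hE _ _
    (Ret.tensor_orth hE _ _ _ _ _ _ (Or.inl p.orth₂)) (Ret.tensor_orth hE _ _ _ _ _ _ (Or.inl p.orth₁))
  have h2 : (p.tensor hE q).od.e = (p.ev.tensor hE (one_mul (-1)) q.od).e +
      (p.od.tensor hE (mul_one (-1)) q.ev).e := Ret.add_e hE _ _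
    (Ret.tensor_orth hE _ _ _ _ _ _ (Or.inl p.orth₂)) (Ret.tensor_orth hE _ _ _ _ _ _ (Or.inl p.orth₁))
  rw [Part.e, h1, h2, Ret.tensor_e, Ret.tensor_e, Ret.tensor_e, Ret.tensor_e, Part.e, Part.e,
    tensor_add_left, tensor_add_right, tensor_add_right]
  abel

lemma Part.tensor_dim (hE : FDClass R E) (p : Part E M) (q : Part E N) :
    (p.tensor hE q).dim R = p.dim R * q.dim R := by
  have hc := R_charZero R
  have h1 := (p.tensor hE q).trace (R := R)
  rw [Part.tensor_e, trace_op_tensor, p.trace, q.trace] at h1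
  exact_mod_cast h1.symm

variable [IsIdempotentComplete C]

lemma cdim_isGreatest (hE : FDClass R E) (M : C) :
    IsGreatest {d | ∃ p : Part E M, p.dim R = d} (cdim R E M) := by
  obtain ⟨p, hp⟩ := exists_part hE M
  rw [Part.Max.cdim hp]
  exact Part.Max.isGreatest hp

lemma le_cdim (hE : FDClass R E) (p : Part E M) : p.dim R ≤ cdim R E M :=
  (cdim_isGreatest hE M).2 ⟨p, rfl⟩

lemma cdim_le (hE : FDClass R E) (M : C) : cdim R E M ≤ totalDim R M := by
  obtain ⟨p, hp⟩ := (cdim_isGreatest (R := R) hE M).1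
  rw [← hp]
  exact p.dim_le

lemma le_cdim_tensor (hE : FDClass R E) (M N : C) :
    cdim R E M * cdim R E N ≤ cdim R E (M ⊗ N) := by
  obtain ⟨p, hp⟩ := (cdim_isGreatest (R := R) hE M).1
  obtain ⟨q, hq⟩ := (cdim_isGreatest (R := R) hE N).1
  rw [← hp, ← hq, ← Part.tensor_dim hE]
  exact le_cdim hE _

/-- The summand is everything if and only if the complement has zero realisation. -/
theorem cdim_eq_iff (hE : FDClass R E) (M : C) :
    cdim R E M = totalDim R M ↔ UpToPhantom R E M := by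
  have hc := R_charZero R
  have h0 := R.finite M
  constructor
  · intro h
    obtain ⟨p, hp⟩ := (cdim_isGreatest (R := R) hE M).1
    refine ⟨p, map_eq_zero ?_⟩
    rw [← hp, ← p.rank] at h
    have h1 : LinearMap.range (op R p.e) = ⊤ := Submodule.eq_top_of_finrank_eq h
    have h2 : op R p.e = 1 := by
      apply LinearMap.ext
      intro x
      obtain ⟨y, rfl⟩ : x ∈ LinearMap.range (op R p.e) := by rw [h1]; trivial
      have h3 := LinearMap.congr_fun (op_idem (R := R) p.ee) y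
      exact h3
    rw [opS, opI, h2, sub_self]
  · rintro ⟨p, hp⟩
    apply le_antisymm (cdim_le hE M)
    refine le_trans (le_of_eq ?_) (le_cdim hE p)
    have h1 := op_eq_zero hp
    rw [opS, opI, sub_eq_zero] at h1
    have h2 := p.trace (R := R)
    rw [← h1, LinearMap.trace_one] at h2
    have h3 : totalDim R M = p.dim R := by exact_mod_cast h2
    exact h3

lemma totalDim_pow (M : C) (n : ℕ) : totalDim R (pow M n) = totalDim R M ^ n := by
  induction n with
  | zero => rw [pow_zero]; exact totalDim_unit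
  | succ n ih =>
    change totalDim R (pow M n ⊗ M) = _
    rw [totalDim_tensor, ih, pow_succ]

lemma pow_cdim_le (hE : FDClass R E) (M : C) (n : ℕ) :
    cdim R E M ^ n ≤ cdim R E (pow M n) := by
  induction n with
  | zero =>
    rw [pow_zero]
    have h1 : UpToPhantom R E (𝟙_ C) := by
      obtain ⟨Z, hZ⟩ := isZero_exists (C := C)
      have hZ0 := (IsZero.iff_id_eq_zero Z).1 hZ
      refine ⟨⟨⟨𝟙_ C, 𝟙 _, 𝟙 _, hE.unit, Category.comp_id _⟩,
        ⟨Z, 0, 0, hE.zero _ Z hZ, by rw [comp_zero, hZ0]⟩, by simp, by simp⟩, ?_⟩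
      have h2 : (⟨⟨𝟙_ C, 𝟙 _, 𝟙 _, hE.unit, Category.comp_id _⟩,
        ⟨Z, 0, 0, hE.zero _ Z hZ, by rw [comp_zero, hZ0]⟩, by simp, by simp⟩ : Part E (𝟙_ C)).e =
          𝟙 (𝟙_ C) := by
        simp [Part.e, Ret.e]
      rw [h2, sub_self, Functor.map_zero]
    have h2 := (cdim_eq_iff hE (𝟙_ C)).2 h1
    rw [totalDim_unit] at h2
    exact h2.ge
  | succ n ih =>
    rw [pow_succ]
    exact (Nat.mul_le_mul_right _ ih).trans (le_cdim_tensor hE (pow M n) M)

lemma cdim_pow_of (hE : FDClass R E) (h : UpToPhantom R E M) (n : ℕ) :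
    cdim R E (pow M n) = totalDim R M ^ n := by
  apply le_antisymm
  · rw [← totalDim_pow (R := R)]
    exact cdim_le hE _
  · rw [← (cdim_eq_iff hE M).2 h]
    exact pow_cdim_le hE M n

/-- The recursion. -/
lemma recursion (hU : UnitQ C) (hE : FDClass R E) (M : C) (n : ℕ) :
    2 * (cdim R E (pow M (n + 1)) : ℤ) - (totalDim R M : ℤ) ^ (n + 1) ≤
      (2 * cdim R E M - totalDim R M) *
        (2 * (cdim R E (pow M n) : ℤ) - (totalDim R M : ℤ) ^ n) := by
  have h1 : cdim R E (pow M (n + 1)) ≤ cdim R E (pow M n) * cdim R E M +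
      (totalDim R (pow M n) - cdim R E (pow M n)) *
        (totalDim R M - cdim R E M) := cdim_tensor_le hU hE (pow M n) M
  rw [totalDim_pow] at h1
  have h2 : cdim R E (pow M n) ≤ totalDim R M ^ n := by
    rw [← totalDim_pow (R := R)]
    exact cdim_le hE _
  have h3 := cdim_le (R := R) hE M
  have h4 : (cdim R E (pow M (n + 1)) : ℤ) ≤ (cdim R E (pow M n) : ℤ) *
      cdim R E M + ((totalDim R M : ℤ) ^ n - cdim R E (pow M n)) *
        ((totalDim R M : ℤ) - cdim R E M) := by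
    have h5 : ((cdim R E (pow M n) * cdim R E M +
      (totalDim R M ^ n - cdim R E (pow M n)) *
        (totalDim R M - cdim R E M) : ℕ) : ℤ) = (cdim R E (pow M n) : ℤ) *
      cdim R E M + ((totalDim R M : ℤ) ^ n - cdim R E (pow M n)) *
        ((totalDim R M : ℤ) - cdim R E M) := by
      push_cast [Nat.cast_sub h2, Nat.cast_sub h3]
      ring
    rw [← h5]
    exact_mod_cast h1
  have h6 : (totalDim R M : ℤ) ^ (n + 1) = (totalDim R M : ℤ) ^ n * totalDim R M := pow_succ _ _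
  rw [h6]
  linarith

/-- **The law, one object.** -/
theorem halfAt (hU : UnitQ C) (hE : FDClass R E) (hM : ¬ UpToPhantom R E M) (n : ℕ) :
    HalfAt R E M n := by
  set b := totalDim R M with hb
  set c := cdim R E M with hc
  have hlt : c < b := lt_of_le_of_ne (cdim_le hE M) fun h => hM ((cdim_eq_iff hE M).1 h)
  have hrec := recursion (R := R) hU hE M
  unfold HalfAt
  rw [← hb]
  rw [← hb, ← hc] at hrec
  by_cases h0 : (0 : ℤ) ≤ 2 * c - b
  · left
    have hb2 : 2 ≤ b := by omega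
    have h1 : ∀ m : ℕ, 2 * (cdim R E (pow M m) : ℤ) - (b : ℤ) ^ m ≤ (2 * c - b : ℤ) ^ m := by
      intro m
      induction m with
      | zero =>
        have h2 : cdim R E (pow M 0) ≤ 1 := by
          rw [← pow_zero (totalDim R M), ← totalDim_pow (R := R)]
          exact cdim_le hE _
        rw [pow_zero, pow_zero]
        omega
      | succ m ih =>
        refine (hrec m).trans ?_
        rw [pow_succ (2 * c - b : ℤ), mul_comm ((2 * c - b : ℤ) ^ m)]
        exact mul_le_mul_of_nonneg_left ih h0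
    have h2 : (2 * c - b : ℤ) ^ n ≤ ((b - 2 : ℕ) : ℤ) ^ n := by
      apply pow_le_pow_left₀ h0
      rw [Nat.cast_sub hb2]
      push_cast
      omega
    have h3 := (h1 n).trans h2
    zify
    linarith
  · push Not at h0
    by_cases h1 : (0 : ℤ) ≤ 2 * (cdim R E (pow M n) : ℤ) - (b : ℤ) ^ n
    · right
      have h2 := hrec n
      have h3 : (2 * c - b : ℤ) * (2 * (cdim R E (pow M n) : ℤ) - (b : ℤ) ^ n) ≤ 0 :=
        mul_nonpos_of_nonpos_of_nonneg h0.le h1
      have h4 : 2 * (cdim R E (pow M (n + 1)) : ℤ) ≤ (b : ℤ) ^ (n + 1) := by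
        have h5 := h2.trans h3
        linarith
      have h6 : 2 * cdim R E (pow M (n + 1)) ≤ b ^ (n + 1) := by exact_mod_cast h4
      exact h6.trans (Nat.le_add_right _ _)
    · left
      push Not at h1
      have h4 : 2 * (cdim R E (pow M n) : ℤ) ≤ (b : ℤ) ^ n := by linarith
      have h6 : 2 * cdim R E (pow M n) ≤ b ^ n := by exact_mod_cast h4
      exact h6.trans (Nat.le_add_right _ _)

/-- **The law.** -/
theorem fromRate (hU : UnitQ C) (hE : FDClass R E) (f : ℕ → ℝ) (hf0 : ∀ y, 0 ≤ f y)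
    (hf : ∀ κ : ℝ, 0 < κ → Tendsto (fun y : ℕ => f y * (y : ℝ) ^ κ) atTop atTop) (M : C)
    (h : ∃ n₀, ∀ n ≥ n₀, MoreThanHalf R E f (pow M n)) : UpToPhantom R E M := by
  obtain ⟨m₀, h⟩ := h
  by_contra hC
  set b := totalDim R M with hb
  have hlt : cdim R E M < b := lt_of_le_of_ne (cdim_le hE M) fun h => hC ((cdim_eq_iff hE M).1 h)
  rcases Nat.lt_or_ge b 2 with hb1 | hb2
  · -- dimension one
    have hb1' : b = 1 := by omega
    obtain ⟨N, hN, hN'⟩ : ∃ N, m₀ + 1 ≤ N ∧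
        2 * cdim R E (pow M N) ≤ b ^ N + (b - 2) ^ N := by
      rcases halfAt hU hE hC (m₀ + 1) with h3 | h3
      · exact ⟨m₀ + 1, le_rfl, h3⟩
      · exact ⟨m₀ + 1 + 1, Nat.le_succ _, h3⟩
    have h3 := h N (by omega)
    rw [MoreThanHalf, totalDim_pow, ← hb, hb1', one_pow] at h3
    rw [hb1', one_pow, show (1 - 2 : ℕ) = 0 from rfl, zero_pow (by omega)] at hN'
    have h4 : cdim R E (pow M N) = 0 := by omega
    rw [h4] at h3
    have h5 := hf0 1
    push_cast at h3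
    linarith
  set θ : ℝ := max (1 - 2 / b) (1 / 2) with hθ
  have hbR : (2 : ℝ) ≤ b := by exact_mod_cast hb2
  have hθ0 : 0 < θ := lt_of_lt_of_le (by norm_num) (le_max_right _ _)
  have hθ1 : θ < 1 := max_lt (by
    have : 0 < 2 / (b : ℝ) := by positivity
    linarith) (by norm_num)
  have hθb : (b : ℝ) - 2 ≤ θ * b := by
    have h1 : 1 - 2 / (b : ℝ) ≤ θ := le_max_left _ _
    have h2 : (1 - 2 / (b : ℝ)) * b = b - 2 := by
      field_simp
    rw [← h2]
    exact mul_le_mul_of_nonneg_right h1 (by linarith)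
  set κ : ℝ := -Real.log θ / Real.log b with hκ
  have hlogb : 0 < Real.log b := Real.log_pos (by linarith)
  have hlogθ : Real.log θ < 0 := Real.log_neg hθ0 hθ1
  have hκ0 : 0 < κ := div_pos (by linarith) hlogb
  have hbκ : (b : ℝ) ^ κ * θ = 1 := by
    rw [Real.rpow_def_of_pos (by linarith), hκ, mul_div_cancel₀ _ hlogb.ne', Real.exp_neg,
      Real.exp_log hθ0, inv_mul_cancel₀ hθ0.ne']
  have h1 : Tendsto (fun n : ℕ => b ^ n) atTop atTop :=
    _root_.tendsto_pow_atTop_atTop_of_one_lt (by omega : 1 < b)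
  have h2 := ((hf κ hκ0).comp h1).eventually_gt_atTop 1
  rw [eventually_atTop] at h2
  obtain ⟨n₀, hn₀⟩ := h2
  obtain ⟨N, hN, hN'⟩ : ∃ N, n₀ + m₀ ≤ N ∧
      2 * cdim R E (pow M N) ≤ b ^ N + (b - 2) ^ N := by
    rcases halfAt hU hE hC (n₀ + m₀) with h3 | h3
    · exact ⟨n₀ + m₀, le_rfl, h3⟩
    · exact ⟨n₀ + m₀ + 1, Nat.le_succ _, h3⟩
  have h3 := h N (by omega)
  rw [MoreThanHalf, totalDim_pow, ← hb] at h3
  have h4 := hn₀ N (by omega)
  simp only [Function.comp_apply] at h4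
  have h5 : (2 : ℝ) * cdim R E (pow M N) ≤ (b : ℝ) ^ N + ((b : ℝ) - 2) ^ N := by
    have h6 : ((2 * cdim R E (pow M N) : ℕ) : ℝ) ≤
        ((b ^ N + (b - 2) ^ N : ℕ) : ℝ) := by exact_mod_cast hN'
    push_cast [Nat.cast_sub hb2] at h6
    exact h6
  have h6 : ((b : ℝ) - 2) ^ N ≤ θ ^ N * (b : ℝ) ^ N := by
    rw [← mul_pow]
    exact pow_le_pow_left₀ (by linarith) hθb _
  have hBpos : (0 : ℝ) < (b : ℝ) ^ N := by positivity
  push_cast at h3
  have h7 : 2 * f (b ^ N) * (b : ℝ) ^ N ≤ θ ^ N * (b : ℝ) ^ N := by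
    nlinarith
  have h8 : 2 * f (b ^ N) ≤ θ ^ N := le_of_mul_le_mul_right h7 hBpos
  have h9 : ((b ^ N : ℕ) : ℝ) ^ κ = ((b : ℝ) ^ κ) ^ N := by
    push_cast
    rw [← Real.rpow_natCast, ← Real.rpow_natCast, ← Real.rpow_mul (by linarith),
      ← Real.rpow_mul (by linarith), mul_comm]
  rw [h9] at h4
  have h10 : (0 : ℝ) < ((b : ℝ) ^ κ) ^ N := by positivity
  have h11 : 2 * f (b ^ N) * ((b : ℝ) ^ κ) ^ N ≤ 1 := by
    refine (mul_le_mul_of_nonneg_right h8 h10.le).trans (le_of_eq ?_)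
    rw [← mul_pow, mul_comm θ, hbκ, one_pow]
  nlinarith

/-- **The law with a constant.** -/
theorem iffConst (hU : UnitQ C) (hE : FDClass R E) (ε : ℝ) (h0 : 0 < ε) (h1 : ε ≤ 1 / 2) (M : C) :
    UpToPhantom R E M ↔ ∃ n₀, ∀ n ≥ n₀, MoreThanHalf R E (fun _ => ε) (pow M n) := by
  constructor
  · intro h
    refine ⟨0, fun n _ => ?_⟩
    rw [MoreThanHalf, cdim_pow_of hE h, totalDim_pow]
    have h2 : (0 : ℝ) ≤ (totalDim R M : ℝ) ^ n := by positivity
    push_cast
    nlinarith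
  · apply fromRate hU hE _ fun _ => h0.le
    intro κ hκ
    apply Tendsto.const_mul_atTop h0
    exact (tendsto_rpow_atTop hκ).comp tendsto_natCast_atTop_atTop

end

end Run7.h199.FD
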