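import Pool.Agent.R484.NCb

/-!
# Tensor classes of even and odd objects, and the largest direct summand in a class
-/

set_option autoImplicit false
set_option linter.unusedSectionVars false

open CategoryTheory Limits MonoidalCategory
open Pool.Agent.Y112.SR Pool.Agent.Y112.KD Pool.Agent.R484.NC

namespace Run7.h199.FD

universe v u w

section

variable {C : Type u} [Category.{v} C] [Preadditive C] [Linear ℚ C] [MonoidalCategory C]
  [MonoidalPreadditive C] [MonoidalLinear ℚ C] [SymmetricCategory C] [RightRigidCategory C]
  [HasBinaryBiproducts C] {K : Type w} [Field K]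

/-- `E 1` is a class of even and `E (-1)` a class of odd objects: the realisations of the objects in
`E 1` are even, those of the objects in `E (-1)` are odd, the classes are stable under direct sums
(the sum of no objects included), direct summands and duals, the tensor product of an object in `E s` and an object in `E t` is in
`E (s t)`, the unit object is in `E 1`, and each endomorphism of an object in `E 1` or `E (-1)` is a root
of a polynomial with rational coefficients which is not zero. -/
structure FDClass (R : SuperRealisation C K) (E : ℤˣ → C → Prop) : Prop where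
  zero : ∀ (s : ℤˣ) (X : C), IsZero X → E s X
  unit : E 1 (𝟙_ C)
  pure : ∀ (s : ℤˣ) (X : C), E s X → R.par X = ((s : ℤ) : K) • 𝟙 _
  sum : ∀ (s : ℤˣ) (X Y : C), E s X → E s Y → E s (X ⊞ Y)
  retract : ∀ (s : ℤˣ) (X Y : C) (i : Y ⟶ X) (r : X ⟶ Y), E s X → i ≫ r = 𝟙 Y → E s Y
  dual : ∀ (s : ℤˣ) (X : C), E s X → E s Xᘁ
  tensor : ∀ (s t : ℤˣ) (X Y : C), E s X → E t Y → E (s * t) (X ⊗ Y)
  alg : ∀ (s : ℤˣ) (X : C) (f : End X), E s X → ∃ p : Polynomial ℚ, p ≠ 0 ∧ Polynomial.aeval f p = 0

/-- A direct summand `P` of `M` in `E s`, with its inclusion `i` and its projection `r`. -/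
structure Ret (E : ℤˣ → C → Prop) (s : ℤˣ) (M : C) where
  /-- the direct summand -/
  P : C
  /-- the inclusion -/
  i : P ⟶ M
  /-- the projection -/
  r : M ⟶ P
  mem : E s P
  ir : i ≫ r = 𝟙 P

/-- A direct summand of `M` which is the sum of an object in `E 1` and an object in `E (-1)`. -/
structure Part (E : ℤˣ → C → Prop) (M : C) where
  /-- the even part -/
  ev : Ret E 1 M
  /-- the odd part -/
  od : Ret E (-1) M
  orth₁ : ev.i ≫ od.r = 0
  orth₂ : od.i ≫ ev.r = 0

/-- The idempotent of `M` which cuts out the direct summand. -/
def Ret.e {E : ℤˣ → C → Prop} {s : ℤˣ} {M : C} (a : Ret E s M) : M ⟶ M := a.r ≫ a.i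

/-- The idempotent of `M` which cuts out the direct summand. -/
def Part.e {E : ℤˣ → C → Prop} {M : C} (p : Part E M) : M ⟶ M := p.ev.e + p.od.e

/-- The dimension of the realisation of the direct summand. -/
noncomputable def Part.dim {E : ℤˣ → C → Prop} {M : C} (R : SuperRealisation C K) (p : Part E M) : ℕ :=
  totalDim R p.ev.P + totalDim R p.od.P

/-- The largest dimension of a direct summand of `M` which is the sum of an object in `E 1` and an
object in `E (-1)`. -/
noncomputable def cdim (R : SuperRealisation C K) (E : ℤˣ → C → Prop) (M : C) : ℕ :=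
  sSup {d | ∃ p : Part E M, p.dim R = d}

/-- `M` is the direct sum of an object in `E 1`, an object in `E (-1)` and an object with zero
realisation. -/
def UpToPhantom (R : SuperRealisation C K) (E : ℤˣ → C → Prop) (M : C) : Prop :=
  ∃ p : Part E M, R.H.map (𝟙 M - p.e) = 0

end

end Run7.h199.FD
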