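import Mathlib

/-!
# Idempotents in the algebra generated by an algebraic element
-/

set_option autoImplicit false

open Polynomial

namespace Run7.h199.FD

theorem exists_idem_aux {A : Type*} [Ring A] [Algebra ℚ A] (f : A) (q u v : ℚ[X]) (k : ℕ)
    (h : aeval f (X ^ k * q) = 0) (huv : u * X ^ (k + 1) + v * q = 1) :
    (f * aeval f (u * X ^ k)) * (f * aeval f (u * X ^ k)) = f * aeval f (u * X ^ k) ∧
      IsNilpotent ((1 - f * aeval f (u * X ^ k)) * f) := by
  have e1 : (X : ℚ[X]) * (u * X ^ k) = u * X ^ (k + 1) := by ring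
  have h1 : f * aeval f (u * X ^ k) = aeval f (u * X ^ (k + 1)) := by
    rw [← e1, map_mul _ X, aeval_X]
  have h2 : 1 - aeval f (u * X ^ (k + 1)) = aeval f (v * q) := by
    have : aeval f (u * X ^ (k + 1) + v * q) = (1 : A) := by rw [huv, map_one]
    rw [← this, map_add]
    abel
  constructor
  · rw [h1]
    have h3 : aeval f (u * X ^ (k + 1)) * (1 - aeval f (u * X ^ (k + 1))) = 0 := by
      rw [h2, ← map_mul]
      have e2 : u * X ^ (k + 1) * (v * q) = (u * v * X) * (X ^ k * q) := by ring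
      rw [e2, map_mul, h, mul_zero]
    rw [mul_sub, mul_one, sub_eq_zero] at h3
    exact h3.symm
  · rw [h1, h2]
    refine ⟨k + 1, ?_⟩
    have h4 : aeval f (v * q) * f = aeval f (v * q * X) := by
      rw [map_mul _ (v * q), aeval_X]
    rw [h4, ← map_pow]
    have e3 : (v * q * X) ^ (k + 1) = (v ^ (k + 1) * q ^ k * X) * (X ^ k * q) := by ring
    rw [e3, map_mul, h, mul_zero]

/-- The idempotent of the part on which an algebraic element is invertible. -/
theorem exists_idem {A : Type*} [Ring A] [Algebra ℚ A] (f : A) (p : ℚ[X]) (hp : p ≠ 0)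
    (h : aeval f p = 0) : ∃ g : ℚ[X], (f * aeval f g) * (f * aeval f g) = f * aeval f g ∧
      IsNilpotent ((1 - f * aeval f g) * f) := by
  obtain ⟨q, hq, hnd⟩ := exists_eq_pow_rootMultiplicity_mul_and_not_dvd p hp 0
  rw [C_0, sub_zero] at hq hnd
  have hco : IsCoprime (X ^ (p.rootMultiplicity 0 + 1)) q :=
    (IsCoprime.pow_left ((Polynomial.irreducible_X.coprime_iff_not_dvd).2 hnd))
  obtain ⟨u, v, huv⟩ := hco
  rw [hq] at h
  exact ⟨_, exists_idem_aux f q u v _ h huv⟩

end Run7.h199.FD
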