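import Pool.Agent.Run7.h199.FD.Defs
import Pool.Agent.Run7.h199.FD.Fit
import Pool.Agent.N536.HK.Lin

/-!
# Morphisms which factor through an object of the class
-/

set_option autoImplicit false
set_option linter.unusedSectionVars false

open CategoryTheory Limits MonoidalCategory
open Pool.Agent.Y112.SR Pool.Agent.Y112.KD Pool.Agent.R484.NC

namespace Run7.h199.FD

universe v u w

section

variable {C : Type u} [Category.{v} C] [Preadditive C] [Linear ℚ C] [MonoidalCategory C]
  [MonoidalPreadditive C] [MonoidalLinear ℚ C] [SymmetricCategory C] [RightRigidCategory C]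
  [HasBinaryBiproducts C] {K : Type w} [Field K]

lemma opI (R : SuperRealisation C K) (M : C) : op R (𝟙 M) = 1 := Pool.Agent.R484.NC.op_id R M

lemma opC (R : SuperRealisation C K) {M : C} (f g : M ⟶ M) : op R (f ≫ g) = op R g * op R f :=
  Pool.Agent.R484.NC.op_comp R f g

lemma opA (R : SuperRealisation C K) {M : C} (f g : M ⟶ M) : op R (f + g) = op R f + op R g :=
  Pool.Agent.R484.NC.op_add R f g

lemma opS (R : SuperRealisation C K) {M : C} (f g : M ⟶ M) : op R (f - g) = op R f - op R g :=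
  Pool.Agent.R484.NC.op_sub R f g

/-- `f` factors through an object in `E s`. -/
def Fac (E : ℤˣ → C → Prop) (s : ℤˣ) {M N : C} (f : M ⟶ N) : Prop :=
  ∃ L, E s L ∧ ∃ (v : M ⟶ L) (u : L ⟶ N), f = v ≫ u

variable {E : ℤˣ → C → Prop} {s t : ℤˣ} {M N : C}

lemma Fac.comp_left {M' : C} {f : M ⟶ N} (h : Fac E s f) (g : M' ⟶ M) : Fac E s (g ≫ f) := by
  obtain ⟨L, hL, v, u, rfl⟩ := h
  exact ⟨L, hL, g ≫ v, u, by rw [Category.assoc]⟩

lemma Fac.comp_right {N' : C} {f : M ⟶ N} (h : Fac E s f) (g : N ⟶ N') : Fac E s (f ≫ g) := by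
  obtain ⟨L, hL, v, u, rfl⟩ := h
  exact ⟨L, hL, v, u ≫ g, by rw [Category.assoc]⟩

lemma Ret.fac (a : Ret E s M) : Fac E s a.e := ⟨_, a.mem, _, _, rfl⟩

lemma Ret.fac_i (a : Ret E s M) : Fac E s a.i := ⟨_, a.mem, 𝟙 _, _, (Category.id_comp _).symm⟩

lemma Ret.fac_r (a : Ret E s M) : Fac E s a.r := ⟨_, a.mem, _, 𝟙 _, (Category.comp_id _).symm⟩

variable {R : SuperRealisation C K}

lemma Fac.par (hE : FDClass R E) {f : M ⟶ N} (h : Fac E s f) :
    R.H.map f ≫ R.par N = ((s : ℤ) : K) • R.H.map f := by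
  obtain ⟨L, hL, v, u, rfl⟩ := h
  rw [Functor.map_comp, Category.assoc, R.par_natural, hE.pure s L hL, Linear.smul_comp,
    Category.id_comp, Linear.comp_smul]

lemma unit_ne (hc : CharZero K) (hst : s ≠ t) : ((s : ℤ) : K) - ((t : ℤ) : K) ≠ 0 := by
  rcases Int.units_eq_one_or s with rfl | rfl <;> rcases Int.units_eq_one_or t with rfl | rfl
  · exact absurd rfl hst
  · norm_num
  · norm_num
  · exact absurd rfl hst

lemma unit_sq (s : ℤˣ) : ((s : ℤ) : K) * ((s : ℤ) : K) = 1 := by
  rcases Int.units_eq_one_or s with rfl | rfl <;> norm_num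

lemma Fac.orth (hE : FDClass R E) {Q : C} {f : M ⟶ N} {g : N ⟶ Q} (hf : Fac E s f) (hg : Fac E t g)
    (hst : s ≠ t) : R.H.map (f ≫ g) = 0 := by
  have hc := R_charZero R
  have h1 : R.H.map (f ≫ g) ≫ R.par Q = ((t : ℤ) : K) • R.H.map (f ≫ g) :=
    (hg.comp_left f).par hE
  have h2 : R.H.map (f ≫ g) ≫ R.par Q = ((s : ℤ) : K) • R.H.map (f ≫ g) :=
    (hf.comp_right g).par hE
  have h3 : (((s : ℤ) : K) - ((t : ℤ) : K)) • R.H.map (f ≫ g) = 0 := by
    rw [sub_smul, ← h1, ← h2, sub_self]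
  exact (smul_eq_zero.1 h3).resolve_left (unit_ne hc hst)

lemma op_eq_zero {f : M ⟶ M} (h : R.H.map f = 0) : op R f = 0 := by
  rw [op, h]
  rfl

lemma map_eq_zero {f : M ⟶ M} (h : op R f = 0) : R.H.map f = 0 := by
  apply ModuleCat.hom_ext
  exact h

lemma str_fac (hE : FDClass R E) {f : M ⟶ M} (h : Fac E s f) :
    str R f = ((s : ℤ) : K) * LinearMap.trace K (R.H.obj M) (op R f) := by
  rw [str, h.par hE, ModuleCat.hom_smul, map_smul, smul_eq_mul]
  rfl

lemma trace_zero_of_str (hE : FDClass R E) {f : M ⟶ M} (h : Fac E s f) (h0 : str R f = 0) :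
    LinearMap.trace K (R.H.obj M) (op R f) = 0 := by
  rw [str_fac hE h] at h0
  rcases mul_eq_zero.1 h0 with h1 | h1
  · exfalso
    have := unit_sq (K := K) s
    rw [h1, mul_zero] at this
    exact zero_ne_one this
  · exact h1

lemma str_comm' (f : M ⟶ N) (g : N ⟶ M) : str R (f ≫ g) = str R (g ≫ f) := by
  have h0 := R.finite M
  have h1 := R.finite N
  have h2 : R.H.map (f ≫ g) ≫ R.par M = R.H.map f ≫ (R.par N ≫ R.H.map g) := by
    rw [Functor.map_comp, Category.assoc, R.par_natural]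
  have h3 : R.H.map (g ≫ f) ≫ R.par N = (R.par N ≫ R.H.map g) ≫ R.H.map f := by
    rw [Functor.map_comp, Category.assoc, R.par_natural, ← Category.assoc, R.par_natural]
  rw [str, str, h2, h3, ModuleCat.hom_comp, ModuleCat.hom_comp]
  exact LinearMap.trace_comp_comm' _ _

lemma trace_comm (f : M ⟶ N) (g : N ⟶ M) :
    LinearMap.trace K (R.H.obj M) (op R (f ≫ g)) = LinearMap.trace K (R.H.obj N) (op R (g ≫ f)) := by
  have h0 := R.finite M
  have h1 := R.finite N
  rw [op, op, Functor.map_comp, Functor.map_comp, ModuleCat.hom_comp, ModuleCat.hom_comp]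
  exact LinearMap.trace_comp_comm' _ _

lemma trace_retract {P : C} (i : P ⟶ M) (r : M ⟶ P) (h : i ≫ r = 𝟙 P) :
    LinearMap.trace K (R.H.obj M) (op R (r ≫ i)) = totalDim R P := by
  have h0 := R.finite P
  rw [trace_comm, h, opI, LinearMap.trace_one, totalDim]

lemma Ret.trace (a : Ret E s M) : LinearMap.trace K (R.H.obj M) (op R a.e) = totalDim R a.P :=
  trace_retract _ _ a.ir

lemma Ret.ee (a : Ret E s M) : a.e ≫ a.e = a.e := by
  simp only [Ret.e, Category.assoc]
  rw [reassoc_of% a.ir]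

lemma Part.ee (p : Part E M) : p.e ≫ p.e = p.e := by
  simp only [Part.e, Ret.e, Preadditive.comp_add, Preadditive.add_comp, Category.assoc]
  simp only [reassoc_of% p.ev.ir, reassoc_of% p.od.ir, reassoc_of% p.orth₁, reassoc_of% p.orth₂,
    zero_comp, comp_zero, add_zero, zero_add]

lemma Part.trace (p : Part E M) : LinearMap.trace K (R.H.obj M) (op R p.e) = p.dim R := by
  rw [Part.e, opA, map_add, Ret.trace, Ret.trace, Part.dim]
  push_cast
  rfl

lemma op_idem {f : M ⟶ M} (h : f ≫ f = f) : op R f * op R f = op R f := by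
  rw [← opC, h]

lemma rank_op {f : M ⟶ M} (h : f ≫ f = f) :
    (Module.finrank K (LinearMap.range (op R f)) : K) = LinearMap.trace K (R.H.obj M) (op R f) := by
  have hc := R_charZero R
  have h0 := R.finite M
  exact (Pool.Agent.N536.HK.trace_idem (op_idem h)).symm

lemma Part.rank (p : Part E M) : Module.finrank K (LinearMap.range (op R p.e)) = p.dim R := by
  have hc := R_charZero R
  have h1 := rank_op (R := R) p.ee
  rw [p.trace] at h1
  exact_mod_cast h1

lemma Part.dim_le (p : Part E M) : p.dim R ≤ totalDim R M := by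
  have h0 := R.finite M
  rw [← p.rank]
  exact Submodule.finrank_le _

end

end Run7.h199.FD
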