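import Pool.Agent.Run7.h199.FD.Kimura

/-!
# Kimura-finite objects in a tensor class, and phantoms
-/

set_option autoImplicit false
set_option linter.unusedSectionVars false
set_option linter.unusedSimpArgs false

open CategoryTheory Limits MonoidalCategory
open Pool.Agent.Y112.SR Pool.Agent.Y112.KD Pool.Agent.R484.NC Pool.Agent.R905

namespace Run7.h199.FD

universe v u w

section

variable {C : Type u} [Category.{v} C] [Preadditive C] [Linear ℚ C] [MonoidalCategory C]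
  [MonoidalPreadditive C] [MonoidalLinear ℚ C] [SymmetricCategory C] [RightRigidCategory C]
  [HasBinaryBiproducts C]

/-- A class of objects which contains the unit object and is stable under direct sums, tensor products
and duals. -/
structure TensorClosed (S : C → Prop) : Prop where
  unit : S (𝟙_ C)
  sum : ∀ X Y : C, S X → S Y → S (X ⊞ Y)
  tensor : ∀ X Y : C, S X → S Y → S (X ⊗ Y)
  dual : ∀ X : C, S X → S Xᘁ

/-- `X` is evenly (`s = 1`) or oddly (`s = -1`) finite-dimensional and a direct summand of an object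
of the class `S`. -/
def KS (S : C → Prop) (s : ℤˣ) (X : C) : Prop :=
  KE s X ∧ ∃ (T : C) (i : X ⟶ T) (r : T ⟶ X), S T ∧ i ≫ r = 𝟙 X

variable {K : Type w} [Field K] (R : SuperRealisation C K) [IsIdempotentComplete C]

theorem fdClass_of (hU : UnitQ C) {S : C → Prop} (hS : TensorClosed S) : FDClass R (KS S) where
  zero s X h := ⟨KE.zero s X h, 𝟙_ C, 0, 0, hS.unit, by
    rw [comp_zero]
    exact h.eq_of_src _ _⟩
  unit := ⟨KE.unit, 𝟙_ C, 𝟙 _, 𝟙 _, hS.unit, Category.comp_id _⟩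
  pure _ _ h := KE.par R h.1
  sum s X Y hX hY := by
    obtain ⟨hX, T, i, r, hT, h1⟩ := hX
    obtain ⟨hY, T', i', r', hT', h2⟩ := hY
    refine ⟨KE.sum s X Y hX hY, T ⊞ T', biprod.map i i', biprod.map r r', hS.sum _ _ hT hT', ?_⟩
    apply biprod.hom_ext <;> apply biprod.hom_ext' <;> simp [h1, h2]
  retract s X Y i r h hir := by
    obtain ⟨hX, T, j, q, hT, h1⟩ := h
    exact ⟨KE.retract s X Y i r hX hir, T, i ≫ j, q ≫ r, hT, by
      rw [Category.assoc, reassoc_of% h1, hir]⟩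
  dual s X h := by
    obtain ⟨hX, T, j, q, hT, h1⟩ := h
    exact ⟨KE.dual R hU s X hX, Tᘁ, qᘁ, jᘁ, hS.dual _ hT, by
      rw [← comp_rightAdjointMate, h1, rightAdjointMate_id]⟩
  tensor s t X Y hX hY := by
    obtain ⟨hX, T, i, r, hT, h1⟩ := hX
    obtain ⟨hY, T', i', r', hT', h2⟩ := hY
    exact ⟨KE.tensor s t X Y hX hY, T ⊗ T', i ⊗ₘ i', r ⊗ₘ r', hS.tensor _ _ hT hT', by
      rw [MonoidalCategory.tensorHom_comp_tensorHom, h1, h2, MonoidalCategory.id_tensorHom_id]⟩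
  alg s X f h := KE.alg R hU s X f h.1

/-- Kimura finite objects. -/
theorem kimura_upTo {M : C} (h : IsKimuraFinite M) : UpToPhantom R (KE (C := C)) M := by
  obtain ⟨E, O, i, r, i', r', h1, h3, h5, ⟨n, hn⟩, m, hm⟩ := (isKimuraFinite_iff M).1 h
  have e1 : KE 1 E := ⟨n, by
    have : -(((1 : ℤˣ) : ℤ) : ℚ) = -1 := by norm_num
    rw [this]
    exact hn⟩
  have e2 : KE (-1) O := ⟨m, by
    have : -(((-1 : ℤˣ) : ℤ) : ℚ) = 1 := by norm_num
    rw [this]
    exact hm⟩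
  have h6 : i ≫ r' = 0 := by
    have h7 : (i ≫ (r ≫ i + r' ≫ i')) ≫ r' = i ≫ r' := by rw [h5, Category.comp_id]
    rw [Preadditive.comp_add, Preadditive.add_comp, reassoc_of% h1] at h7
    simp only [Category.assoc, h3, Category.comp_id] at h7
    exact add_eq_left.1 h7
  have h8 : i' ≫ r = 0 := by
    have h7 : (i' ≫ (r ≫ i + r' ≫ i')) ≫ r = i' ≫ r := by rw [h5, Category.comp_id]
    rw [Preadditive.comp_add, Preadditive.add_comp] at h7
    simp only [Category.assoc, h1, reassoc_of% h3, Category.comp_id] at h7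
    exact add_eq_left.1 h7
  refine ⟨⟨⟨E, i, r, e1, h1⟩, ⟨O, i', r', e2, h3⟩, h6, h8⟩, ?_⟩
  have h9 : (𝟙 M - Part.e (E := KE (C := C)) ⟨⟨E, i, r, e1, h1⟩, ⟨O, i', r', e2, h3⟩, h6, h8⟩) = 0 := by
    change 𝟙 M - (r ≫ i + r' ≫ i') = 0
    rw [h5, sub_self]
  rw [h9, Functor.map_zero]

/-- Without phantoms in `M`, finite-dimensionality up to a phantom is finite-dimensionality. -/
theorem kimura_iff {M : C} (hM : ∀ e : M ⟶ M, e ≫ e = e → R.H.map e = 0 → e = 0) :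
    IsKimuraFinite M ↔ UpToPhantom R (KE (C := C)) M := by
  refine ⟨kimura_upTo R, ?_⟩
  rintro ⟨p, hp⟩
  have h1 : 𝟙 M - p.e = 0 := by
    apply hM _ _ hp
    have h2 := p.ee
    rw [Preadditive.comp_sub, Preadditive.sub_comp, Preadditive.sub_comp, h2]
    simp
  have h3 : p.ev.r ≫ p.ev.i + p.od.r ≫ p.od.i = 𝟙 M := (sub_eq_zero.1 h1).symm
  obtain ⟨n, hn⟩ := p.ev.mem
  obtain ⟨m, hm⟩ := p.od.mem
  refine (isKimuraFinite_iff M).2 ⟨p.ev.P, p.od.P, p.ev.i, p.ev.r, p.od.i, p.od.r, p.ev.ir, p.od.ir,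
    h3, ⟨n, ?_⟩, m, ?_⟩
  · have : -(((1 : ℤˣ) : ℤ) : ℚ) = -1 := by norm_num
    rw [this] at hn
    exact hn
  · have : -(((-1 : ℤˣ) : ℤ) : ℚ) = 1 := by norm_num
    rw [this] at hm
    exact hm

/-- Without phantoms in `M`, to be up to a phantom the sum of an even and an odd object of the class
is to be Kimura finite and a direct summand of an object in `S`. -/
theorem kimura_iff_of {S : C → Prop} (hS : TensorClosed S) {M : C}
    (hM : ∀ e : M ⟶ M, e ≫ e = e → R.H.map e = 0 → e = 0) :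
    UpToPhantom R (KS S) M ↔
      IsKimuraFinite M ∧ ∃ (T : C) (i : M ⟶ T) (r : T ⟶ M), S T ∧ i ≫ r = 𝟙 M := by
  constructor
  · rintro ⟨p, hp⟩
    have h1 : 𝟙 M - p.e = 0 := by
      apply hM _ _ hp
      have h2 := p.ee
      rw [Preadditive.comp_sub, Preadditive.sub_comp, Preadditive.sub_comp, h2]
      simp
    have h3 : p.ev.r ≫ p.ev.i + p.od.r ≫ p.od.i = 𝟙 M := (sub_eq_zero.1 h1).symm
    obtain ⟨⟨n, hn⟩, T, i, r, hT, hir⟩ := p.ev.mem
    obtain ⟨⟨m, hm⟩, T', i', r', hT', hir'⟩ := p.od.mem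
    refine ⟨(isKimuraFinite_iff M).2 ⟨p.ev.P, p.od.P, p.ev.i, p.ev.r, p.od.i, p.od.r, p.ev.ir,
      p.od.ir, h3, ⟨n, ?_⟩, m, ?_⟩, T ⊞ T', biprod.lift (p.ev.r ≫ i) (p.od.r ≫ i'),
      biprod.desc (r ≫ p.ev.i) (r' ≫ p.od.i), hS.sum _ _ hT hT', ?_⟩
    · have : -(((1 : ℤˣ) : ℤ) : ℚ) = -1 := by norm_num
      rw [this] at hn
      exact hn
    · have : -(((-1 : ℤˣ) : ℤ) : ℚ) = 1 := by norm_num
      rw [this] at hm
      exact hm
    · rw [biprod.lift_desc, Category.assoc, Category.assoc, reassoc_of% hir, reassoc_of% hir', h3]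
  · rintro ⟨hK, T, j, q, hT, hjq⟩
    obtain ⟨p, hp⟩ := kimura_upTo R hK
    refine ⟨⟨⟨p.ev.P, p.ev.i, p.ev.r, ⟨p.ev.mem, T, p.ev.i ≫ j, q ≫ p.ev.r, hT, ?_⟩, p.ev.ir⟩,
      ⟨p.od.P, p.od.i, p.od.r, ⟨p.od.mem, T, p.od.i ≫ j, q ≫ p.od.r, hT, ?_⟩, p.od.ir⟩,
      p.orth₁, p.orth₂⟩, hp⟩
    · rw [Category.assoc, reassoc_of% hjq, p.ev.ir]
    · rw [Category.assoc, reassoc_of% hjq, p.od.ir]

end

end Run7.h199.FD
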