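import Pool.Agent.K3h8.KS.Generic
import Pool.Agent.R905.Div

/-!
# Direct sums of objects with a vanishing exterior or symmetric power
-/

set_option autoImplicit false
set_option linter.unusedSectionVars false
set_option linter.unusedSimpArgs false

open CategoryTheory Limits MonoidalCategory
open Pool.Agent.Y112.KD Pool.Agent.K3h8.KS

namespace Run7.h199.FD

universe v u

section

variable {C : Type u} [Category.{v} C] [MonoidalCategory C] [SymmetricCategory C]

/-- The tensor product of a word of endomorphisms. -/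
def Wf {X : C} : ∀ (n : ℕ), (Fin n → (X ⟶ X)) → (tp X n ⟶ tp X n)
  | 0, _ => 𝟙 _
  | n + 1, w => Wf n (fun i => w i.castSucc) ⊗ₘ w (Fin.last n)

lemma Wf_succ {X : C} (n : ℕ) (w : Fin (n + 1) → (X ⟶ X)) :
    Wf (n + 1) w = Wf n (fun i => w i.castSucc) ⊗ₘ w (Fin.last n) := rfl

lemma Wf_adj {X : C} : ∀ {n i : ℕ} (h : i + 1 < n) (w : Fin n → (X ⟶ X)),
    adj X n i ≫ Wf n w =
      Wf n (fun j => w (Equiv.swap (⟨i, by omega⟩ : Fin n) ⟨i + 1, h⟩ j)) ≫ adj X n i := by
  intro n
  induction n with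
  | zero => intro i h; omega
  | succ n ih =>
    intro i h w
    by_cases h1 : i + 1 < n
    · rw [adj_lift X h1, Wf_succ, Wf_succ, ← tensorHom_id, tensorHom_comp_tensorHom,
        tensorHom_comp_tensorHom, ih h1, Category.id_comp, Category.comp_id]
      have e1 : Equiv.swap (⟨i, by omega⟩ : Fin (n + 1)) ⟨i + 1, h⟩ (Fin.last n) = Fin.last n := by
        refine Equiv.swap_apply_of_ne_of_ne ?_ ?_
        · intro h2
          have := congrArg Fin.val h2
          simp at this
          omega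
        · intro h2
          have := congrArg Fin.val h2
          simp at this
          omega
      have e2 : ∀ j : Fin n, (Equiv.swap (⟨i, by omega⟩ : Fin n) ⟨i + 1, h1⟩ j).castSucc =
          Equiv.swap (⟨i, by omega⟩ : Fin (n + 1)) ⟨i + 1, h⟩ j.castSucc := by
        intro j
        rw [Equiv.swap_apply_def, Equiv.swap_apply_def]
        simp only [Fin.ext_iff, Fin.val_castSucc]
        split_ifs <;> rfl
      rw [e1]
      simp only [e2]
    · obtain rfl : n = i + 1 := by omega
      rw [adj_last, Wf_succ, Wf_succ, Wf_succ, Wf_succ, ← sw_nat]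
      congr 1
      have e1 : Equiv.swap (⟨i, by omega⟩ : Fin (i + 2)) ⟨i + 1, h⟩ (Fin.last (i + 1)) =
          (Fin.last i).castSucc := by
        have : Fin.last (i + 1) = (⟨i + 1, h⟩ : Fin (i + 2)) := rfl
        rw [this, Equiv.swap_apply_right]
        rfl
      have e2 : Equiv.swap (⟨i, by omega⟩ : Fin (i + 2)) ⟨i + 1, h⟩ (Fin.last i).castSucc =
          Fin.last (i + 1) := by
        have : (Fin.last i).castSucc = (⟨i, by omega⟩ : Fin (i + 2)) := rfl
        rw [this, Equiv.swap_apply_left]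
        rfl
      have e3 : ∀ j : Fin i, Equiv.swap (⟨i, by omega⟩ : Fin (i + 2)) ⟨i + 1, h⟩
          j.castSucc.castSucc = j.castSucc.castSucc := by
        intro j
        refine Equiv.swap_apply_of_ne_of_ne ?_ ?_
        · intro h2
          have := congrArg Fin.val h2
          simp at this
          omega
        · intro h2
          have := congrArg Fin.val h2
          simp at this
          omega
      rw [e1, e2]
      simp only [e3]

variable [Preadditive C] [Linear ℚ C] [MonoidalPreadditive C] [MonoidalLinear ℚ C]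

/-- A morphism to a tensor power vanishes if its components vanish. -/
lemma eq_zero_of_words {P : C} {e f : P ⟶ P} (hef : e + f = 𝟙 P) : ∀ (n : ℕ) (Q Z : C)
    (v : Z ⟶ tp P n ⊗ Q), (∀ w : Fin n → (P ⟶ P), (∀ i, w i = e ∨ w i = f) →
      v ≫ (Wf n w ▷ Q) = 0) → v = 0 := by
  intro n
  induction n with
  | zero =>
    intro Q Z v h
    have h1 := h (fun i => i.elim0) (fun i => i.elim0)
    have h2 : (Wf 0 (fun i => i.elim0) : tp P 0 ⟶ tp P 0) = 𝟙 _ := rfl
    rw [h2, id_whiskerRight, Category.comp_id] at h1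
    exact h1
  | succ n ih =>
    intro Q Z v h
    have h1 : v ≫ (α_ (tp P n) P Q).hom = 0 := by
      refine ih (P ⊗ Q) Z _ fun w hw => ?_
      have key : ∀ x : P ⟶ P, (x = e ∨ x = f) →
          v ≫ ((Wf n w ⊗ₘ x) ▷ Q) ≫ (α_ (tp P n) P Q).hom = 0 := by
        intro x hx
        have h2 := h (Fin.snoc w x) (fun i => by
          refine Fin.lastCases ?_ (fun j => ?_) i
          · rw [Fin.snoc_last]
            exact hx
          · rw [Fin.snoc_castSucc]
            exact hw j)
        rw [Wf_succ] at h2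
        simp only [Fin.snoc_castSucc, Fin.snoc_last] at h2
        rw [reassoc_of% h2, zero_comp]
      have h3 : (v ≫ (α_ (tp P n) P Q).hom) ≫ Wf n w ▷ (P ⊗ Q) =
          v ≫ ((Wf n w ⊗ₘ e) ▷ Q) ≫ (α_ (tp P n) P Q).hom +
            v ≫ ((Wf n w ⊗ₘ f) ▷ Q) ≫ (α_ (tp P n) P Q).hom := by
        rw [← Preadditive.comp_add, ← Preadditive.add_comp, ← MonoidalPreadditive.add_whiskerRight,
          ← MonoidalPreadditive.tensor_add, hef]
        simp
      rw [h3, key e (Or.inl rfl), key f (Or.inr rfl), add_zero]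
    rw [← cancel_mono (α_ (tp P n) P Q).hom, h1, zero_comp]

/-- The rearrangement of a word in front of an (anti)symmetric morphism. -/
lemma word_perm {η : ℚ} {P Z : C} {n : ℕ} (v : Z ⟶ tp P n)
    (hv : ∀ i, i + 1 < n → v ≫ adj P n i = η • v) : ∀ (g : Equiv.Perm (Fin n))
    (w : Fin n → (P ⟶ P)), v ≫ Wf n (fun j => w (g j)) = 0 → v ≫ Wf n w = 0 := by
  refine perm_induction ?_ ?_ ?_
  · intro w h
    exact h
  · intro g h hg hh w hw
    exact hg w (hh (fun j => w (g j)) hw)
  · intro i hi w hw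
    have h1 := Wf_adj hi w
    have h2 : v ≫ adj P n i ≫ Wf n w = 0 := by rw [h1, reassoc_of% hw, zero_comp]
    rw [← Category.assoc, hv i hi, Linear.smul_comp] at h2
    by_cases hη : η = 0
    · have h3 := hv i hi
      rw [hη, zero_smul] at h3
      have h4 : v = 0 := by
        rw [← Category.comp_id v, ← adj_sq P hi, reassoc_of% h3, zero_comp]
      rw [h4, zero_comp]
    · exact (smul_eq_zero.1 h2).resolve_left hη

lemma Wf_tpm {P : C} {e : P ⟶ P} (he : e ≫ e = e) : ∀ (n : ℕ) (w : Fin n → (P ⟶ P)),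
    (∀ i, w i = e) → Wf n w ≫ tpm e n = Wf n w := by
  intro n
  induction n with
  | zero => intro w _; simp [Wf, tpm]
  | succ n ih =>
    intro w hw
    have e1 : tpm e (n + 1) = tpm e n ⊗ₘ e := rfl
    rw [Wf_succ, e1, tensorHom_comp_tensorHom, ih _ (fun i => hw _), hw, he]

lemma Wf_wk {P : C} {e : P ⟶ P} (he : e ≫ e = e) {n : ℕ} : ∀ (k : ℕ) (w : Fin (n + k) → (P ⟶ P)),
    (∀ i, i.val < n → w i = e) → Wf (n + k) w ≫ wk k (tpm e n) = Wf (n + k) w := by
  intro k
  induction k with
  | zero =>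
    intro w hw
    exact Wf_tpm he n w (fun i => hw i i.2)
  | succ k ih =>
    intro w hw
    have h1 := ih (fun i => w i.castSucc) (fun i hi => hw _ hi)
    have e1 : Wf (n + (k + 1)) w = Wf (n + k) (fun i => w i.castSucc) ⊗ₘ w (Fin.last (n + k)) := rfl
    have e2 : wk (k + 1) (tpm e n) = wk k (tpm e n) ▷ P := rfl
    rw [e1, e2, ← tensorHom_id, tensorHom_comp_tensorHom, h1, Category.comp_id]

/-- A word with many letters `e` kills (anti)symmetric morphisms. -/
lemma word_zero {η : ℚ} (hη : η * η = 1) {P X Z : C} (i : X ⟶ P) (r : P ⟶ X) (hir : i ≫ r = 𝟙 X)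
    {n k : ℕ} (hX : asym η X n = 0) (v : Z ⟶ tp P (n + k))
    (hv : ∀ j, j + 1 < n + k → v ≫ adj P (n + k) j = η • v) (w : Fin (n + k) → (P ⟶ P))
    (S : Finset (Fin (n + k))) (hS : S.card = n) (hw : ∀ j ∈ S, w j = r ≫ i) :
    v ≫ Wf (n + k) w = 0 := by
  have he : (r ≫ i) ≫ (r ≫ i) = r ≫ i := by rw [Category.assoc, reassoc_of% hir]
  obtain ⟨π, hπ⟩ := exists_perm (Nat.le_add_right n k) hS
  refine word_perm v hv π⁻¹ w ?_
  obtain ⟨w', hw'⟩ : ∃ w' : Fin (n + k) → (P ⟶ P), w' = fun j => w (π⁻¹ j) := ⟨_, rfl⟩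
  rw [← hw']
  have hw1 : ∀ j : Fin (n + k), j.val < n → w' j = r ≫ i := by
    intro j hj
    rw [hw']
    apply hw
    rw [hπ]
    have : π (π⁻¹ j) = j := π.apply_symm_apply j
    rw [this]
    exact hj
  obtain ⟨u, hu⟩ : ∃ u, u = v ≫ Wf (n + k) w' := ⟨_, rfl⟩
  rw [← hu]
  have hu1 : ∀ j, j + 1 < n → u ≫ adj P (n + k) j = η • u := by
    intro j hj
    have h1 := Wf_adj (X := P) (show j + 1 < n + k by omega) w'
    have h2 : (fun l => w' (Equiv.swap (⟨j, by omega⟩ : Fin (n + k)) ⟨j + 1, by omega⟩ l)) =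
        w' := by
      funext l
      by_cases h3 : l = ⟨j, by omega⟩
      · rw [h3, Equiv.swap_apply_left, hw1 ⟨j + 1, by omega⟩ hj,
          hw1 ⟨j, by omega⟩ (by change j < n; omega)]
      · by_cases h4 : l = ⟨j + 1, by omega⟩
        · rw [h4, Equiv.swap_apply_right, hw1 ⟨j + 1, by omega⟩ hj,
            hw1 ⟨j, by omega⟩ (by change j < n; omega)]
        · rw [Equiv.swap_apply_of_ne_of_ne h3 h4]
    rw [h2] at h1
    rw [hu, Category.assoc, ← h1, ← Category.assoc, hv j (by omega), Linear.smul_comp]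
  have hu2 : u ≫ wk k (tpm (r ≫ i) n) = u := by
    rw [hu, Category.assoc, Wf_wk he k w' hw1]
  let ψ : (tp P n ⟶ tp P n) →ₗ[ℚ] Module.End ℚ (Z ⟶ tp P (n + k)) :=
    { toFun := fun x =>
        { toFun := fun v => v ≫ wk k x
          map_add' := fun x y => Preadditive.add_comp _ _ _ _ _ _
          map_smul' := fun c x => Linear.smul_comp _ _ _ _ _ _ }
      map_add' := fun x y => by
        ext v
        simp only [wk_add, LinearMap.coe_mk, AddHom.coe_mk, LinearMap.add_apply,
          Preadditive.comp_add]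
      map_smul' := fun c x => by
        ext v
        simp only [wk_smul, LinearMap.coe_mk, AddHom.coe_mk, LinearMap.smul_apply,
          Linear.comp_smul, RingHom.id_apply] }
  have h3 : ψ (asym η P n) u = u := by
    refine psi_asym hη u n ψ ?_ ?_ ?_
    · intro x y
      ext v
      simp only [ψ, wk_comp, LinearMap.coe_mk, AddHom.coe_mk, Module.End.mul_apply,
        Category.assoc]
    · ext v
      simp only [ψ, wk_id, LinearMap.coe_mk, AddHom.coe_mk, Module.End.one_apply,
        Category.comp_id]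
    · intro s hs
      obtain ⟨j, hj, rfl⟩ := exists_adj P hs
      change u ≫ wk k (adj P n j) = _
      rw [wk_adj hj]
      exact hu1 j hj
  have h4 : u ≫ wk k (asym η P n) = u := h3
  have h5 : tpm (r ≫ i) n ≫ asym η P n = 0 := by
    rw [← tpm_comp, Category.assoc, asym_nat, hX]
    simp
  calc u = (u ≫ wk k (tpm (r ≫ i) n)) ≫ wk k (asym η P n) := by rw [hu2, h4]
    _ = u ≫ wk k (tpm (r ≫ i) n ≫ asym η P n) := by rw [wk_comp, Category.assoc]
    _ = 0 := by rw [h5, wk_zero, comp_zero]

open scoped Classical in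
/-- A theorem of Kimura: the sum of two objects with a vanishing exterior (symmetric) power. -/
theorem asym_sum {η : ℚ} (hη : η * η = 1) {P X Y : C} (i : X ⟶ P) (r : P ⟶ X) (i' : Y ⟶ P)
    (r' : P ⟶ Y) (h1 : i ≫ r = 𝟙 X) (h2 : i' ≫ r' = 𝟙 Y) (h3 : r ≫ i + r' ≫ i' = 𝟙 P) {n : ℕ}
    (hX : asym η X n = 0) (hY : asym η Y n = 0) : asym η P (n + n) = 0 := by
  obtain ⟨v, hv⟩ : ∃ v, v = asym η P (n + n) := ⟨_, rfl⟩
  rw [← hv]
  have hv1 : ∀ j, j + 1 < n + n → v ≫ adj P (n + n) j = η • v := by
    intro j hj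
    rw [hv]
    exact (swap_asym hη P (isSwap_adj P hj)).2
  have h4 : v ≫ (ρ_ (tp P (n + n))).inv = 0 := by
    refine eq_zero_of_words h3 (n + n) (𝟙_ C) _ _ fun w hw => ?_
    have h5 : v ≫ Wf (n + n) w = 0 := by
      obtain ⟨S, hS⟩ : ∃ S : Finset (Fin (n + n)), S = Finset.univ.filter fun j => w j = r ≫ i :=
        ⟨_, rfl⟩
      by_cases hc : n ≤ S.card
      · obtain ⟨S', hS', hc'⟩ := Finset.exists_subset_card_eq hc
        refine word_zero hη i r h1 hX v hv1 w S' hc' fun j hj => ?_
        have := hS' hj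
        rw [hS, Finset.mem_filter] at this
        exact this.2
      · have h6 : n ≤ Sᶜ.card := by
          rw [Finset.card_compl, Fintype.card_fin]
          omega
        obtain ⟨S', hS', hc'⟩ := Finset.exists_subset_card_eq h6
        refine word_zero hη i' r' h2 hY v hv1 w S' hc' fun j hj => ?_
        have := hS' hj
        rw [hS, Finset.mem_compl, Finset.mem_filter] at this
        exact (hw j).resolve_left fun h7 => this ⟨Finset.mem_univ _, h7⟩
    rw [Category.assoc, ← rightUnitor_inv_naturality, ← Category.assoc, h5, zero_comp]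
  rw [← cancel_mono (ρ_ (tp P (n + n))).inv, h4, zero_comp]

end

end Run7.h199.FD
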