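import Pool.Agent.K3h8.KS.Generic
import Pool.Agent.R905.Div

/-!
# Tensor products of objects with a vanishing exterior or symmetric power (a theorem of Kimura)
-/

set_option autoImplicit false
set_option linter.unusedSectionVars false
set_option linter.unusedSimpArgs false

open CategoryTheory Limits MonoidalCategory
open Pool.Agent.Y112.KD Pool.Agent.K3h8.KS

namespace Run7.h199.FD

universe v u

section

variable {C : Type u} [Category.{v} C] [MonoidalCategory C] [SymmetricCategory C]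
  [Preadditive C] [Linear ℚ C] [MonoidalPreadditive C] [MonoidalLinear ℚ C]

/-- The transfer of (anti)symmetrizers. -/
lemma transfer {η ν : ℚ} (hν : ν * ν = 1) {A B : C} {V W : Type*} [AddCommGroup V] [Module ℚ V]
    [AddCommGroup W] [Module ℚ W] (F : V →ₗ[ℚ] W) : ∀ (m : ℕ)
    (φ : (tp A m ⟶ tp A m) →ₗ[ℚ] Module.End ℚ V) (φ' : (tp B m ⟶ tp B m) →ₗ[ℚ] Module.End ℚ W),
    (∀ x y, φ (x ≫ y) = φ x * φ y) → (∀ x y, φ' (x ≫ y) = φ' y * φ' x) →
    φ (𝟙 _) = 1 → φ' (𝟙 _) = 1 →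
    (∀ i, i + 1 < m → ∀ v, φ' (adj B m i) (F v) = ν • F (φ (adj A m i) v)) →
    ∀ v, φ' (asym (ν * η) B m) (F v) = F (φ (asym η A m) v) := by
  intro m
  induction m with
  | zero =>
    intro φ φ' _ _ h1 h1' _ v
    rw [asym_zero, asym_zero, h1, h1', Module.End.one_apply, Module.End.one_apply]
  | succ m ih =>
    intro φ φ' hm hm' h1 h1' hs v
    rcases m with - | m
    · rw [asym_one, asym_one, h1, h1', Module.End.one_apply, Module.End.one_apply]
    · let ψ : (tp A (m + 1) ⟶ tp A (m + 1)) →ₗ[ℚ] Module.End ℚ V :=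
        { toFun := fun x => φ (x ▷ A)
          map_add' := fun x y => by
            rw [MonoidalPreadditive.add_whiskerRight, map_add]
          map_smul' := fun c x => by
            rw [MonoidalLinear.smul_whiskerRight, map_smul, RingHom.id_apply] }
      let ψ' : (tp B (m + 1) ⟶ tp B (m + 1)) →ₗ[ℚ] Module.End ℚ W :=
        { toFun := fun x => φ' (x ▷ B)
          map_add' := fun x y => by
            rw [MonoidalPreadditive.add_whiskerRight, map_add]
          map_smul' := fun c x => by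
            rw [MonoidalLinear.smul_whiskerRight, map_smul, RingHom.id_apply] }
      have h2 : ∀ v, φ' (asym (ν * η) B (m + 1) ▷ B) (F v) = F (φ (asym η A (m + 1) ▷ A) v) :=
        ih ψ ψ' (fun x y => by
          change φ ((x ≫ y) ▷ A) = φ (x ▷ A) * φ (y ▷ A)
          rw [comp_whiskerRight, hm]) (fun x y => by
          change φ' ((x ≫ y) ▷ B) = φ' (y ▷ B) * φ' (x ▷ B)
          rw [comp_whiskerRight, hm']) (by
          change φ ((𝟙 _) ▷ A) = 1
          rw [id_whiskerRight, h1]) (by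
          change φ' ((𝟙 _) ▷ B) = 1
          rw [id_whiskerRight, h1']) (fun i hi v => by
          change φ' (adj B (m + 1) i ▷ B) (F v) = ν • F (φ (adj A (m + 1) i ▷ A) v)
          rw [← adj_lift B hi, ← adj_lift A hi]
          exact hs i (by omega) v)
      have h3 : ∀ v, φ' (sw (tp B m) B) (F v) = ν • F (φ (sw (tp A m) A) v) := by
        intro v
        have := hs m (by omega) v
        rwa [adj_last, adj_last] at this
      rw [asym_succ, asym_succ, map_smul, map_smul, map_add, map_add, map_smul, map_smul, hm', hm',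
        hm, hm]
      simp only [LinearMap.smul_apply, LinearMap.add_apply, Module.End.mul_apply]
      rw [h2, h3, map_smul, h2, smul_smul, map_smul, map_add, map_smul]
      congr 3
      linear_combination (η * ((m + 1 : ℕ) : ℚ)) * hν

/-- The character of the symmetric group. -/
lemma exists_char (M : ℕ) {ν : ℚ} (hν : ν = 1 ∨ ν = -1) : ∃ c : Equiv.Perm (Fin M) →* ℚ,
    ∀ (i : ℕ) (hi : i + 1 < M), c (Equiv.swap ⟨i, by omega⟩ ⟨i + 1, hi⟩) = ν := by
  rcases hν with rfl | rfl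
  · exact ⟨1, fun i hi => rfl⟩
  · refine ⟨(Int.castRingHom ℚ).toMonoidHom.comp ((Units.coeHom ℤ).comp Equiv.Perm.sign),
      fun i hi => ?_⟩
    have h1 : Equiv.Perm.sign (Equiv.swap (⟨i, by omega⟩ : Fin M) ⟨i + 1, hi⟩) = -1 :=
      Equiv.Perm.sign_swap (by simp)
    change ((Equiv.Perm.sign (Equiv.swap (⟨i, by omega⟩ : Fin M) ⟨i + 1, hi⟩) : ℤ) : ℚ) = -1
    rw [h1]
    simp

/-- The symmetrized pairing of the two actions. -/
noncomputable def Ph {A B : C} {M : ℕ} (c : Equiv.Perm (Fin M) →* ℚ)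
    (ρA : Equiv.Perm (Fin M) →* End (tp A M)) (ρB : Equiv.Perm (Fin M) →* End (tp B M)) :
    ((tp A M ⟶ tp A M) →ₗ[ℚ] ℚ) →ₗ[ℚ] (𝟙_ C ⊗ tp B M ⟶ 𝟙_ C ⊗ tp B M) where
  toFun l := ∑ g, (c g * l (ρA g : tp A M ⟶ tp A M)) • (𝟙_ C ◁ (ρB g : tp B M ⟶ tp B M))
  map_add' l l' := by
    rw [← Finset.sum_add_distrib]
    refine Finset.sum_congr rfl fun g _ => ?_
    rw [LinearMap.add_apply, mul_add, add_smul]
  map_smul' a l := by
    rw [RingHom.id_apply, Finset.smul_sum]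
    refine Finset.sum_congr rfl fun g _ => ?_
    rw [LinearMap.smul_apply, smul_eq_mul, smul_smul]
    congr 1
    ring

lemma Ph_apply {A B : C} {M : ℕ} (c : Equiv.Perm (Fin M) →* ℚ)
    (ρA : Equiv.Perm (Fin M) →* End (tp A M)) (ρB : Equiv.Perm (Fin M) →* End (tp B M))
    (l : (tp A M ⟶ tp A M) →ₗ[ℚ] ℚ) : Ph c ρA ρB l =
      ∑ g, (c g * l (ρA g : tp A M ⟶ tp A M)) • (𝟙_ C ◁ (ρB g : tp B M ⟶ tp B M)) := rfl

/-- composition on the right, in the dual space -/
noncomputable def rc {A : C} {M : ℕ} (x : tp A M ⟶ tp A M) :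
    ((tp A M ⟶ tp A M) →ₗ[ℚ] ℚ) →ₗ[ℚ] ((tp A M ⟶ tp A M) →ₗ[ℚ] ℚ) where
  toFun l := l.comp (Linear.rightComp ℚ (tp A M) x)
  map_add' l l' := by ext; rfl
  map_smul' a l := by ext; rfl

lemma rc_apply {A : C} {M : ℕ} (x : tp A M ⟶ tp A M) (l : (tp A M ⟶ tp A M) →ₗ[ℚ] ℚ)
    (z : tp A M ⟶ tp A M) : rc x l z = l (z ≫ x) := rfl

lemma Ph_comp {A B : C} {M : ℕ} (c : Equiv.Perm (Fin M) →* ℚ)
    (ρA : Equiv.Perm (Fin M) →* End (tp A M)) (ρB : Equiv.Perm (Fin M) →* End (tp B M))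
    (l : (tp A M ⟶ tp A M) →ₗ[ℚ] ℚ) (g : Equiv.Perm (Fin M)) :
    Ph c ρA ρB l ≫ (𝟙_ C ◁ (ρB g : tp B M ⟶ tp B M)) =
      c g⁻¹ • Ph c ρA ρB (rc (ρA g⁻¹ : tp A M ⟶ tp A M) l) := by
  rw [Ph_apply, Ph_apply, Preadditive.sum_comp, Finset.smul_sum]
  refine (Fintype.sum_equiv (Equiv.mulLeft g⁻¹) _ _ fun x => ?_).symm
  rw [rc_apply, Linear.smul_comp, ← MonoidalCategory.whiskerLeft_comp, smul_smul]
  have h1 : (ρB ((Equiv.mulLeft g⁻¹) x) : tp B M ⟶ tp B M) ≫ (ρB g : tp B M ⟶ tp B M) =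
      (ρB x : tp B M ⟶ tp B M) := by
    have h2 : ρB g * ρB (g⁻¹ * x) = ρB x := by rw [← map_mul, mul_inv_cancel_left]
    exact h2
  have h3 : (ρA x : tp A M ⟶ tp A M) ≫ (ρA g⁻¹ : tp A M ⟶ tp A M) =
      (ρA ((Equiv.mulLeft g⁻¹) x) : tp A M ⟶ tp A M) := by
    have h2 : ρA g⁻¹ * ρA x = ρA (g⁻¹ * x) := (map_mul _ _ _).symm
    exact h2
  rw [h1, h3]
  congr 1
  have h4 : c ((Equiv.mulLeft g⁻¹) x) = c g⁻¹ * c x := map_mul _ _ _
  rw [h4]
  ring

/-- A theorem of Kimura: the key vanishing. -/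
theorem Ph_eq_zero {η θ ν : ℚ} (hη : η = 1 ∨ η = -1) (hθ : θ = 1 ∨ θ = -1) (hν : ν = -(η * θ))
    {A B : C} {n k : ℕ} (hA : asym η A n = 0) (hB : asym θ B n = 0) (hnk : n * n ≤ n + k)
    (c : Equiv.Perm (Fin (n + k)) →* ℚ)
    (hc : ∀ (i : ℕ) (hi : i + 1 < n + k), c (Equiv.swap ⟨i, by omega⟩ ⟨i + 1, hi⟩) = ν)
    (ρA : Equiv.Perm (Fin (n + k)) →* End (tp A (n + k)))
    (hρA : ∀ (i : ℕ) (hi : i + 1 < n + k),
      ρA (Equiv.swap ⟨i, by omega⟩ ⟨i + 1, hi⟩) = adj A (n + k) i)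
    (ρB : Equiv.Perm (Fin (n + k)) →* End (tp B (n + k)))
    (hρB : ∀ (i : ℕ) (hi : i + 1 < n + k),
      ρB (Equiv.swap ⟨i, by omega⟩ ⟨i + 1, hi⟩) = adj B (n + k) i)
    (l : (tp A (n + k) ⟶ tp A (n + k)) →ₗ[ℚ] ℚ) : Ph c ρA ρB l = 0 := by
  have hηη : η * η = 1 := by rcases hη with rfl | rfl <;> norm_num
  have hθθ : θ * θ = 1 := by rcases hθ with rfl | rfl <;> norm_num
  have hnn : (-θ) * (-θ) = 1 := by rw [neg_mul_neg, hθθ]
  have hνν : ν * ν = 1 := by rw [hν]; linear_combination (θ * θ) * hηη + hθθ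
  have hνη : ν * η = -θ := by rw [hν]; linear_combination (-θ) * hηη
  let T := TT (A := 𝟙_ C) (B := 𝟙_ C) ρB
  let U : Submodule ℚ (𝟙_ C ⊗ tp B (n + k) ⟶ 𝟙_ C ⊗ tp B (n + k)) := LinearMap.range (Ph c ρA ρB)
  have hst : ∀ g, ∀ u ∈ U, T g u ∈ U := by
    rintro g u ⟨l, rfl⟩
    refine ⟨c g⁻¹ • rc (ρA g⁻¹ : tp A (n + k) ⟶ tp A (n + k)) l, ?_⟩
    rw [map_smul]
    exact (Ph_comp c ρA ρB l g).symm
  have hcol : ∀ S : Finset (Fin (n + k)), S.card = n → ∀ v ∈ U, Inv T θ S v → v = 0 := by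
    intro S hS v _ hv
    obtain ⟨π, hπ⟩ := fixed_of_inv hθθ hρB hS hv
    rw [hB, wk_zero, MonoidalPreadditive.whiskerLeft_zero, comp_zero] at hπ
    have h1 : T π⁻¹ (T π v) = v := by rw [T_mul, inv_mul_cancel, map_one, Module.End.one_apply]
    rw [← h1]
    change T π⁻¹ (TT (A := 𝟙_ C) (B := 𝟙_ C) ρB π v) = 0
    rw [← hπ, map_zero]
  have hU : ∀ u ∈ U, u ≫ (𝟙_ C ◁ wk k (asym (-θ) B n)) = 0 := by
    rintro u ⟨l, rfl⟩
    let φ : (tp A n ⟶ tp A n) →ₗ[ℚ] Module.End ℚ ((tp A (n + k) ⟶ tp A (n + k)) →ₗ[ℚ] ℚ) :=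
      { toFun := fun x => rc (wk k x)
        map_add' := fun x y => by
          ext l z
          change l (z ≫ wk k (x + y)) = l (z ≫ wk k x) + l (z ≫ wk k y)
          rw [wk_add, Preadditive.comp_add, map_add]
        map_smul' := fun c x => by
          ext l z
          change l (z ≫ wk k (c • x)) = c • l (z ≫ wk k x)
          rw [wk_smul, Linear.comp_smul, map_smul] }
    let φ' : (tp B n ⟶ tp B n) →ₗ[ℚ] Module.End ℚ (𝟙_ C ⊗ tp B (n + k) ⟶ 𝟙_ C ⊗ tp B (n + k)) :=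
      { toFun := fun x =>
          { toFun := fun v => v ≫ (𝟙_ C ◁ wk k x)
            map_add' := fun x y => Preadditive.add_comp _ _ _ _ _ _
            map_smul' := fun c x => Linear.smul_comp _ _ _ _ _ _ }
        map_add' := fun x y => by
          ext v
          simp only [wk_add, MonoidalPreadditive.whiskerLeft_add, LinearMap.coe_mk, AddHom.coe_mk,
            LinearMap.add_apply, Preadditive.comp_add]
        map_smul' := fun c x => by
          ext v
          simp only [wk_smul, MonoidalLinear.whiskerLeft_smul, LinearMap.coe_mk, AddHom.coe_mk,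
            LinearMap.smul_apply, Linear.comp_smul, RingHom.id_apply] }
    have h1 := transfer (η := η) hνν (Ph c ρA ρB) n φ φ' (fun x y => by
        ext l z
        change l (z ≫ wk k (x ≫ y)) = l ((z ≫ wk k x) ≫ wk k y)
        rw [wk_comp, Category.assoc]) (fun x y => by
        ext v
        change v ≫ (𝟙_ C ◁ wk k (x ≫ y)) = (v ≫ (𝟙_ C ◁ wk k x)) ≫ (𝟙_ C ◁ wk k y)
        rw [wk_comp, MonoidalCategory.whiskerLeft_comp, Category.assoc]) (by
        ext l z
        change l (z ≫ wk k (𝟙 _)) = l z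
        rw [wk_id, Category.comp_id]) (by
        ext v
        change v ≫ (𝟙_ C ◁ wk k (𝟙 _)) = v
        rw [wk_id, MonoidalCategory.whiskerLeft_id, Category.comp_id]) (fun i hi l => by
        change Ph c ρA ρB l ≫ (𝟙_ C ◁ wk k (adj B n i)) = ν • Ph c ρA ρB (rc (wk k (adj A n i)) l)
        rw [wk_adj hi, wk_adj hi]
        have h2 := Ph_comp c ρA ρB l (Equiv.swap ⟨i, by omega⟩ ⟨i + 1, by omega⟩)
        rw [Equiv.swap_inv, hρA i (by omega), hρB i (by omega), hc i (by omega)] at h2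
        exact h2) l
    rw [hνη] at h1
    change Ph c ρA ρB l ≫ (𝟙_ C ◁ wk k (asym (-θ) B n)) = _ at h1
    rw [h1, hA, map_zero, LinearMap.zero_apply, map_zero]
  have hrow : ∀ S : Finset (Fin (n + k)), S.card = n → ∀ v ∈ U, Inv T (-θ) S v → v = 0 := by
    intro S hS v hvU hv
    obtain ⟨π, hπ⟩ := fixed_of_inv hnn hρB hS hv
    have h2 : TT (A := 𝟙_ C) (B := 𝟙_ C) ρB π v = 0 := by
      rw [← hπ]
      exact hU _ (hst π v hvU)
    have h1 : T π⁻¹ (T π v) = v := by rw [T_mul, inv_mul_cancel, map_one, Module.End.one_apply]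
    rw [← h1]
    change T π⁻¹ (TT (A := 𝟙_ C) (B := 𝟙_ C) ρB π v) = 0
    rw [h2, map_zero]
  have hcard : n * n ≤ Fintype.card (Fin (n + k)) := by rwa [Fintype.card_fin]
  have hmem : Ph c ρA ρB l ∈ U := ⟨l, rfl⟩
  rcases hθ with rfl | rfl
  · exact eq_zero_of_no_inv hcard U (fun i j => hst _) hcol hrow _ hmem
  · rw [neg_neg] at hrow
    exact eq_zero_of_no_inv hcard U (fun i j => hst _) hrow hcol _ hmem

/-- The tensor product of two endomorphisms, as a linear map. -/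
noncomputable def tl (X Y : C) : TensorProduct ℚ (X ⟶ X) (Y ⟶ Y) →ₗ[ℚ] (X ⊗ Y ⟶ X ⊗ Y) :=
  TensorProduct.lift (LinearMap.mk₂ ℚ (fun x y => x ⊗ₘ y)
    (fun x x' y => by rw [MonoidalPreadditive.add_tensor])
    (fun a x y => by rw [MonoidalCategory.tensorHom_def, MonoidalLinear.smul_whiskerRight,
      Linear.smul_comp, ← MonoidalCategory.tensorHom_def])
    (fun x y y' => by rw [MonoidalPreadditive.tensor_add])
    (fun a x y => by rw [MonoidalCategory.tensorHom_def, MonoidalLinear.whiskerLeft_smul,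
      Linear.comp_smul, ← MonoidalCategory.tensorHom_def]))

lemma tl_tmul {X Y : C} (x : X ⟶ X) (y : Y ⟶ Y) : tl X Y (x ⊗ₜ y) = x ⊗ₘ y := rfl

open scoped Classical in
/-- A theorem of Kimura: the tensor product of objects with a vanishing exterior or symmetric power
has a vanishing exterior or symmetric power. -/
theorem asym_tensor {η θ : ℚ} (hη : η = 1 ∨ η = -1) (hθ : θ = 1 ∨ θ = -1) {A B : C} {n k : ℕ}
    (hA : asym η A n = 0) (hB : asym θ B n = 0) (hnk : n * n ≤ n + k) :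
    asym (-(η * θ)) (A ⊗ B) (n + k) = 0 := by
  obtain ⟨ν, hν⟩ : ∃ ν, ν = -(η * θ) := ⟨_, rfl⟩
  rw [← hν]
  have hν1 : ν = 1 ∨ ν = -1 := by
    rcases hη with rfl | rfl <;> rcases hθ with rfl | rfl <;> rw [hν] <;> norm_num
  have hνν : ν * ν = 1 := by rcases hν1 with rfl | rfl <;> norm_num
  obtain ⟨c, hc⟩ := exists_char (n + k) hν1
  obtain ⟨ρA, hρA⟩ := exists_rho' A (n + k)
  obtain ⟨ρB, hρB⟩ := exists_rho' B (n + k)
  have hPh := Ph_eq_zero hη hθ hν hA hB hnk c hc ρA hρA ρB hρB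
  -- the sum of the tensor products vanishes
  have ht : (∑ g, c g • ((ρA g : tp A (n + k) ⟶ tp A (n + k)) ⊗ₜ[ℚ]
      (ρB g : tp B (n + k) ⟶ tp B (n + k)))) = 0 := by
    let ℬ := Module.Basis.ofVectorSpace ℚ (tp A (n + k) ⟶ tp A (n + k))
    apply (TensorProduct.equivFinsuppOfBasisLeft (N := (tp B (n + k) ⟶ tp B (n + k))) ℬ).injective
    rw [map_zero, map_sum]
    ext i
    rw [Finsupp.finsetSum_apply, Finsupp.zero_apply]
    have h1 := hPh (ℬ.coord i)
    rw [Ph_apply] at h1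
    have h2 : 𝟙_ C ◁ (∑ g, (c g * ℬ.coord i (ρA g : tp A (n + k) ⟶ tp A (n + k))) •
        (ρB g : tp B (n + k) ⟶ tp B (n + k))) = 0 := by
      rw [← h1, CategoryTheory.whiskerLeft_sum]
      exact Finset.sum_congr rfl fun g _ => MonoidalLinear.whiskerLeft_smul _ _ _
    rw [MonoidalCategory.id_whiskerLeft] at h2
    have h3 := congrArg (fun z => (λ_ _).inv ≫ z ≫ (λ_ _).hom) h2
    simp only [Category.assoc, Iso.inv_hom_id_assoc, Iso.inv_hom_id, Category.comp_id, zero_comp,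
      comp_zero] at h3
    rw [← h3]
    refine Finset.sum_congr rfl fun g _ => ?_
    rw [map_smul, Finsupp.smul_apply, TensorProduct.equivFinsuppOfBasisLeft_apply_tmul_apply,
      smul_smul]
    rfl
  have ht' : (∑ g, c g • ((ρA g : tp A (n + k) ⟶ tp A (n + k)) ⊗ₘ
      (ρB g : tp B (n + k) ⟶ tp B (n + k)))) = 0 := by
    have h1 := congrArg (tl (tp A (n + k)) (tp B (n + k))) ht
    rw [map_zero, map_sum] at h1
    rw [← h1]
    refine Finset.sum_congr rfl fun g _ => ?_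
    rw [map_smul, tl_tmul]
  rw [← kills_iff hνν]
  intro Z h hh
  have hv : ∀ g, ((ρA g : tp A (n + k) ⟶ tp A (n + k)) ⊗ₘ
      (ρB g : tp B (n + k) ⟶ tp B (n + k))) ≫ unzip A B (n + k) ≫ h =
        c g • (unzip A B (n + k) ≫ h) := by
    refine perm_induction ?_ ?_ ?_
    · rw [map_one, map_one, map_one, one_smul]
      change (𝟙 _ ⊗ₘ 𝟙 _) ≫ _ = _
      simp
    · intro g g' hg hg'
      have e1 : (ρA (g * g') : tp A (n + k) ⟶ tp A (n + k)) =
        (ρA g' : tp A (n + k) ⟶ tp A (n + k)) ≫ (ρA g : tp A (n + k) ⟶ tp A (n + k)) :=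
        map_mul ρA g g'
      have e2 : (ρB (g * g') : tp B (n + k) ⟶ tp B (n + k)) =
        (ρB g' : tp B (n + k) ⟶ tp B (n + k)) ≫ (ρB g : tp B (n + k) ⟶ tp B (n + k)) :=
        map_mul ρB g g'
      rw [e1, e2, ← tensorHom_comp_tensorHom, Category.assoc, hg, Linear.comp_smul, hg', smul_smul,
        map_mul]
    · intro i hi
      have e1 : (ρA (Equiv.swap ⟨i, by omega⟩ ⟨i + 1, hi⟩) : tp A (n + k) ⟶ tp A (n + k)) =
        adj A (n + k) i := hρA i hi
      have e2 : (ρB (Equiv.swap ⟨i, by omega⟩ ⟨i + 1, hi⟩) : tp B (n + k) ⟶ tp B (n + k)) =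
        adj B (n + k) i := hρB i hi
      rw [e1, e2, hc i hi]
      have z1 := zip_adj A B hi
      have z2 : unzip A B (n + k) ≫ adj (A ⊗ B) (n + k) i =
          (adj A (n + k) i ⊗ₘ adj B (n + k) i) ≫ unzip A B (n + k) := by
        have e1 := congrArg (fun z => unzip A B (n + k) ≫ z ≫ unzip A B (n + k)) z1
        simp only [Category.assoc, zip_unzip, Category.comp_id] at e1
        rw [e1, ← Category.assoc, unzip_zip, Category.id_comp]
      rw [← Category.assoc, ← z2, Category.assoc, hh _ (isSwap_adj _ hi), Linear.comp_smul]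
  have hcc : ∀ g : Equiv.Perm (Fin (n + k)), c g * c g = 1 := by
    refine perm_induction ?_ ?_ ?_
    · rw [map_one, one_mul]
    · intro g g' hg hg'
      rw [map_mul]
      linear_combination (c g' * c g') * hg + hg'
    · intro i hi
      rw [hc i hi, hνν]
  have hsum : (∑ g : Equiv.Perm (Fin (n + k)), c g • ((ρA g : tp A (n + k) ⟶ tp A (n + k)) ⊗ₘ
      (ρB g : tp B (n + k) ⟶ tp B (n + k)))) ≫ unzip A B (n + k) ≫ h =
      (Fintype.card (Equiv.Perm (Fin (n + k))) : ℚ) • (unzip A B (n + k) ≫ h) := by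
    rw [Preadditive.sum_comp]
    have e1 : ∀ g ∈ (Finset.univ : Finset (Equiv.Perm (Fin (n + k)))),
        (c g • ((ρA g : tp A (n + k) ⟶ tp A (n + k)) ⊗ₘ
          (ρB g : tp B (n + k) ⟶ tp B (n + k)))) ≫ unzip A B (n + k) ≫ h =
        unzip A B (n + k) ≫ h := by
      intro g _
      rw [Linear.smul_comp, hv, smul_smul, hcc, one_smul]
    rw [Finset.sum_congr rfl e1, Finset.sum_const, Finset.card_univ, ← Nat.cast_smul_eq_nsmul ℚ]
  rw [ht', zero_comp] at hsum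
  have hne : (Fintype.card (Equiv.Perm (Fin (n + k))) : ℚ) ≠ 0 := by
    exact_mod_cast Fintype.card_ne_zero
  have h0 := (smul_eq_zero.1 hsum.symm).resolve_left hne
  rw [← Category.id_comp h, ← zip_unzip, Category.assoc, h0, comp_zero]

end

end Run7.h199.FD
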