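import Pool.Agent.Run7.h199.FD.KTensor
import Pool.Agent.Run7.h199.FD.KSum
import Pool.Agent.Run7.h199.FD.Law
import Pool.Agent.N64.AF.K2
import Pool.Agent.N190.Sd.Rat

/-!
# The evenly and the oddly finite-dimensional objects are a tensor class
-/

set_option autoImplicit false
set_option linter.unusedSectionVars false
set_option linter.unusedSimpArgs false

open CategoryTheory Limits MonoidalCategory Functor.LaxMonoidal Functor.OplaxMonoidal
open Pool.Agent.Y112.SR Pool.Agent.Y112.KD Pool.Agent.R484.NC Pool.Agent.R905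

namespace Run7.h199.FD

universe v u w

section

variable {C : Type u} [Category.{v} C] [Preadditive C] [Linear ℚ C] [MonoidalCategory C]
  [MonoidalPreadditive C] [MonoidalLinear ℚ C] [SymmetricCategory C]

/-- The object `X` is evenly finite-dimensional (`s = 1`: an exterior power of `X` vanishes) or oddly
finite-dimensional (`s = -1`: a symmetric power of `X` vanishes) in the sense of Kimura. -/
def KE (s : ℤˣ) (X : C) : Prop := ∃ n, asym (-((s : ℤ) : ℚ)) X n = 0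

lemma eta_cases (s : ℤˣ) : -((s : ℤ) : ℚ) = 1 ∨ -((s : ℤ) : ℚ) = -1 := by
  rcases Int.units_eq_one_or s with rfl | rfl
  · right; simp
  · left; simp

lemma eta_sq (s : ℤˣ) : (-((s : ℤ) : ℚ)) * (-((s : ℤ) : ℚ)) = 1 := by
  rcases eta_cases s with h | h <;> rw [h] <;> norm_num

lemma asym_le {η : ℚ} (hη : η * η = 1) {X : C} {n m : ℕ} (hnm : n ≤ m) (h : asym η X n = 0) :
    asym η X m = 0 := by
  induction m, hnm using Nat.le_induction with
  | base => exact h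
  | succ m _ ih => exact asym_mono hη X ih

lemma KE.zero (s : ℤˣ) (X : C) (h : IsZero X) : KE s X := by
  refine ⟨1, ?_⟩
  rw [asym_one]
  have h1 : (𝟙 X : X ⟶ X) = 0 := h.eq_of_src _ _
  have h2 : 𝟙 (tp X 0 ⊗ X) = tp X 0 ◁ (𝟙 X) := (MonoidalCategory.whiskerLeft_id _ _).symm
  rw [h2, h1, MonoidalPreadditive.whiskerLeft_zero]

lemma KE.unit : KE 1 (𝟙_ C) := by
  refine ⟨2, ?_⟩
  have h1 : sw (tp (𝟙_ C) 0) (𝟙_ C) = 𝟙 _ := by
    have h2 : (β_ (𝟙_ C) (𝟙_ C)).hom = 𝟙 _ := by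
      rw [braiding_tensorUnit_left, unitors_equal, Iso.hom_inv_id]
    rw [sw, h2]
    simp
  rw [asym_succ, asym_one, h1]
  simp only [id_whiskerRight, Category.id_comp, Category.comp_id]
  have h3 : (-(((1 : ℤˣ) : ℤ) : ℚ)) * (((0 + 1 : ℕ)) : ℚ) = -1 := by norm_num
  rw [h3, neg_smul, one_smul, add_neg_cancel, smul_zero]

lemma KE.retract (s : ℤˣ) (X Y : C) (i : Y ⟶ X) (r : X ⟶ Y) (h : KE s X) (hir : i ≫ r = 𝟙 Y) :
    KE s Y := by
  obtain ⟨n, hn⟩ := h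
  exact ⟨n, kills_retract i r hir hn⟩

lemma KE.sum [HasBinaryBiproducts C] (s : ℤˣ) (X Y : C) (hX : KE s X) (hY : KE s Y) :
    KE s (X ⊞ Y) := by
  obtain ⟨n, hn⟩ := hX
  obtain ⟨m, hm⟩ := hY
  have hn' := asym_le (eta_sq s) (le_max_left n m) hn
  have hm' := asym_le (eta_sq s) (le_max_right n m) hm
  exact ⟨_, asym_sum (eta_sq s) biprod.inl biprod.fst biprod.inr biprod.snd (by simp) (by simp)
    biprod.total hn' hm'⟩

lemma KE.tensor (s t : ℤˣ) (X Y : C) (hX : KE s X) (hY : KE t Y) : KE (s * t) (X ⊗ Y) := by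
  obtain ⟨n, hn⟩ := hX
  obtain ⟨m, hm⟩ := hY
  have hn' := asym_le (eta_sq s) (le_max_left n m) hn
  have hm' := asym_le (eta_sq t) (le_max_right n m) hm
  have h1 := asym_tensor (eta_cases s) (eta_cases t) hn' hm'
    (k := max n m * max n m) (Nat.le_add_left _ _)
  have h2 : -(-((s : ℤ) : ℚ) * -((t : ℤ) : ℚ)) = -(((s * t : ℤˣ) : ℤ) : ℚ) := by
    rw [neg_mul_neg, Units.val_mul, Int.cast_mul]
  rw [h2] at h1
  exact ⟨_, h1⟩

lemma KE.tp (s : ℤˣ) (X : C) (h : KE s X) : ∀ n : ℕ, ∃ t : ℤˣ, KE t (tp X n) := by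
  intro n
  induction n with
  | zero => exact ⟨1, KE.unit⟩
  | succ n ih =>
    obtain ⟨t, ht⟩ := ih
    exact ⟨t * s, KE.tensor t s _ _ ht h⟩

lemma KE.kimura [IsIdempotentComplete C] {s : ℤˣ} {X : C} (h : KE s X) : IsKimuraFinite X := by
  have h0 : ∀ (τ : ℚ) (x : X ⟶ X), x = 0 → PowerVanishes τ x 1 := by
    intro τ x hx Z g _
    have e1 : tpm x 1 = tpm x 0 ⊗ₘ x := rfl
    rw [e1, hx, MonoidalCategory.tensorHom_def, MonoidalPreadditive.whiskerLeft_zero,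
      comp_zero, zero_comp]
  obtain ⟨n, hn⟩ := h
  rcases eta_cases s with h1 | h1 <;> rw [h1] at hn
  · refine ⟨0, by simp, ⟨1, h0 _ _ rfl⟩, n, ?_⟩
    rw [sub_zero]
    exact (powerVanishes_iff (by norm_num) (𝟙 X) (𝟙 X) (by simp) (by simp) n).2 hn
  · refine ⟨𝟙 X, by simp, ⟨n, ?_⟩, 1, h0 _ _ (sub_self _)⟩
    exact (powerVanishes_iff (by norm_num) (𝟙 X) (𝟙 X) (by simp) (by simp) n).2 hn

end

section

variable {C : Type u} [Category.{v} C] [Preadditive C] [Linear ℚ C] [MonoidalCategory C]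
  [MonoidalPreadditive C] [MonoidalLinear ℚ C] [SymmetricCategory C] [RightRigidCategory C]
  {K : Type w} [Field K] (R : SuperRealisation C K)

lemma zigzag' (N : C) : R.H.obj Nᘁ ◁ coe R N ≫ (α_ _ _ _).inv ≫ evb R N ▷ R.H.obj Nᘁ =
    (ρ_ (R.H.obj Nᘁ)).hom ≫ (λ_ (R.H.obj Nᘁ)).inv := by
  rw [← cancel_mono (λ_ (R.H.obj Nᘁ)).hom]
  simp only [Category.assoc, Iso.inv_hom_id, Category.comp_id]
  have h3 : (λ_ (R.H.obj Nᘁ)).hom = ε R.H ▷ R.H.obj Nᘁ ≫ μ R.H (𝟙_ C) Nᘁ ≫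
      R.H.map (λ_ Nᘁ).hom := Functor.LaxMonoidal.left_unitality R.H Nᘁ
  rw [h3, coe, evb]
  simp only [comp_whiskerRight, MonoidalCategory.whiskerLeft_comp, Category.assoc]
  have h4 : η R.H ▷ R.H.obj Nᘁ ≫ ε R.H ▷ R.H.obj Nᘁ = 𝟙 _ := by
    rw [← comp_whiskerRight, Functor.Monoidal.η_ε, id_whiskerRight]
  rw [reassoc_of% h4, μ_natural_left_assoc]
  have h5 := Functor.LaxMonoidal.associativity_inv (F := R.H) Nᘁ N Nᘁ
  have h6 : (R.H.obj Nᘁ ◁ δ R.H N Nᘁ) ≫ (R.H.obj Nᘁ ◁ μ R.H N Nᘁ) = 𝟙 _ := by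
    rw [← MonoidalCategory.whiskerLeft_comp, Functor.Monoidal.δ_μ,
      MonoidalCategory.whiskerLeft_id]
  rw [← reassoc_of% h5, reassoc_of% h6, μ_natural_right_assoc, ← Functor.map_comp,
    ← Functor.map_comp, ← Functor.map_comp]
  have h7 : Nᘁ ◁ η_ N Nᘁ ≫ (α_ Nᘁ N Nᘁ).inv ≫ ε_ N Nᘁ ▷ Nᘁ ≫ (λ_ Nᘁ).hom = (ρ_ Nᘁ).hom := by
    rw [ExactPairing.coevaluation_evaluation_assoc]
    simp
  rw [h7]
  exact (Functor.LaxMonoidal.right_unitality R.H Nᘁ).symm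

/-- The parity of the dual object. -/
lemma par_dual {X : C} {c : K} (hcc : c * c = 1) (h : R.par X = c • 𝟙 _) :
    R.par Xᘁ = c • 𝟙 _ := by
  obtain ⟨g, hg⟩ : ∃ g, g = R.par Xᘁ - c • 𝟙 (R.H.obj Xᘁ) := ⟨_, rfl⟩
  have h1 := evb_even R X
  have h2 : g ▷ R.H.obj X ≫ evb R X = 0 := by
    have h3 : (R.par Xᘁ ⊗ₘ R.par X) = c • (R.par Xᘁ ▷ R.H.obj X) := by
      rw [h, MonoidalCategory.tensorHom_def, MonoidalLinear.whiskerLeft_smul,
        MonoidalCategory.whiskerLeft_id, Linear.comp_smul, Category.comp_id]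
    rw [h3, Linear.smul_comp] at h1
    have h4 : R.par Xᘁ ▷ R.H.obj X ≫ evb R X = c • evb R X := by
      rw [← h1, smul_smul, hcc, one_smul, h1]
    have h6 : g + c • 𝟙 (R.H.obj Xᘁ) = R.par Xᘁ := by rw [hg, sub_add_cancel]
    rw [← h6, MonoidalPreadditive.add_whiskerRight, Preadditive.add_comp,
      MonoidalLinear.smul_whiskerRight, id_whiskerRight, Linear.smul_comp, Category.id_comp] at h4
    exact add_eq_right.1 h4
  have h5 : g = 0 := by
    have h6 := zigzag' R X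
    have h7 : g ≫ (ρ_ (R.H.obj Xᘁ)).inv ≫ (ρ_ (R.H.obj Xᘁ)).hom ≫ (λ_ (R.H.obj Xᘁ)).inv = 0 := by
      rw [← h6, rightUnitor_inv_naturality_assoc, ← whisker_exchange_assoc,
        associator_inv_naturality_left_assoc, ← comp_whiskerRight, h2,
        MonoidalPreadditive.zero_whiskerRight, comp_zero, comp_zero, comp_zero]
    rw [Iso.inv_hom_id_assoc] at h7
    rw [← cancel_mono (λ_ (R.H.obj Xᘁ)).inv, h7, zero_comp]
  rw [h5] at hg
  exact (sub_eq_zero.1 hg.symm)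

lemma map_whisker_zero' {X Y : C} (f : X ⟶ X) (hf : R.H.map f = 0) : R.H.map (f ▷ Y) = 0 := by
  rw [Functor.Monoidal.map_whiskerRight, hf]
  simp

lemma map_whisker_zero {X Y : C} (f : X ⟶ X) (hf : R.H.map f = 0) : R.H.map (Y ◁ f) = 0 := by
  rw [Functor.Monoidal.map_whiskerLeft, hf]
  simp

/-- The transposition reflects zero. -/
lemma eq_zero_of_mate {Y : C} (f : Yᘁ ⟶ Yᘁ) (h : f ▷ Y ≫ ε_ Y Yᘁ = 0) : f = 0 := by
  have h1 : f ≫ (ρ_ Yᘁ).inv ≫ (ρ_ Yᘁ).hom ≫ (λ_ Yᘁ).inv = 0 := by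
    rw [← ExactPairing.coevaluation_evaluation Y Yᘁ, rightUnitor_inv_naturality_assoc,
      ← whisker_exchange_assoc, associator_inv_naturality_left_assoc, ← comp_whiskerRight, h,
      MonoidalPreadditive.zero_whiskerRight, comp_zero, comp_zero, comp_zero]
  rw [Iso.inv_hom_id_assoc] at h1
  rw [← cancel_mono (λ_ Yᘁ).inv, h1, zero_comp]

/-- Homologically trivial endomorphisms of the dual object. -/
lemma homNil_dual {Y : C} (h : HomNil R Y) : HomNil R Yᘁ := by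
  intro f hf
  -- the mate
  let m : (Yᘁ ⟶ Yᘁ) → (Y ⟶ Y) := fun f => leftAdjointMate f
  have hm : ∀ f g : Yᘁ ⟶ Yᘁ, m (f ≫ g) = m g ≫ m f := fun f g => comp_leftAdjointMate
  have hm1 : m (𝟙 Yᘁ) = 𝟙 Y := leftAdjointMate_id
  have h1 : R.H.map (m (f : Yᘁ ⟶ Yᘁ)) = 0 := by
    have h0 : R.H.map (((ᘁ(Yᘁ)) ◁ (f : Yᘁ ⟶ Yᘁ)) ▷ (ᘁ(Yᘁ))) = 0 := by
      rw [Functor.Monoidal.map_whiskerRight, Functor.Monoidal.map_whiskerLeft, hf]
      simp
    change R.H.map (leftAdjointMate (f : Yᘁ ⟶ Yᘁ)) = 0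
    unfold leftAdjointMate
    simp only [Functor.map_comp]
    rw [h0]
    simp
  obtain ⟨n, hn⟩ := h (m (f : Yᘁ ⟶ Yᘁ)) h1
  refine ⟨n, ?_⟩
  have h2 : ∀ k : ℕ, m ((f ^ k : End Yᘁ) : Yᘁ ⟶ Yᘁ) = ((en (m (f : Yᘁ ⟶ Yᘁ))) ^ k : End Y) := by
    intro k
    induction k with
    | zero =>
      rw [pow_zero, pow_zero]
      exact hm1
    | succ k ih =>
      rw [pow_succ, pow_succ']
      change m ((f : Yᘁ ⟶ Yᘁ) ≫ ((f ^ k : End Yᘁ) : Yᘁ ⟶ Yᘁ)) = _
      rw [hm, ih]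
      rfl
  have h3 : m ((f ^ n : End Yᘁ) : Yᘁ ⟶ Yᘁ) = 0 := (h2 n).trans hn
  apply eq_zero_of_mate
  have h4 := leftAdjointMate_comp_evaluation ((f ^ n : End Yᘁ) : Yᘁ ⟶ Yᘁ)
  have h5 : Yᘁ ◁ m ((f ^ n : End Yᘁ) : Yᘁ ⟶ Yᘁ) ≫ ε_ Y Yᘁ =
    ((f ^ n : End Yᘁ) : Yᘁ ⟶ Yᘁ) ▷ Y ≫ ε_ Y Yᘁ := h4
  rw [← h5, h3, MonoidalPreadditive.whiskerLeft_zero, zero_comp]

/-- The dual of a tensor power. -/
lemma exists_dual_iso (X : C) : ∀ n : ℕ, Nonempty (tp Xᘁ n ≅ (tp X n)ᘁ) := by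
  intro n
  induction n with
  | zero => exact ⟨rightDualIso (X := 𝟙_ C) exactPairingUnit (RightRigidCategory.rightDual (𝟙_ C)).exact⟩
  | succ n ih =>
    obtain ⟨i⟩ := ih
    exact ⟨whiskerRightIso i Xᘁ ≪≫ β_ _ _ ≪≫
      (rightDualIso (X := tp X n ⊗ X) (RightRigidCategory.rightDual (tp X n ⊗ X)).exact
        ExactPairing.tensor).symm⟩

variable [IsIdempotentComplete C]

include R in
lemma KE.homNil (hU : UnitQ C) {s : ℤˣ} {X : C} (h : KE s X) : HomNil R X :=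
  h.kimura.homNil R hU

lemma KE.par {s : ℤˣ} {X : C} (h : KE s X) : R.par X = ((s : ℤ) : K) • 𝟙 _ := by
  have hc := R_charZero R
  obtain ⟨n, hn⟩ := h
  rw [par_eq_of_asym R (eta_sq s) hn]
  push_cast
  rw [neg_neg]

include R in
lemma KE.dual (hU : UnitQ C) (s : ℤˣ) (X : C) (h : KE s X) : KE s Xᘁ := by
  have hc := R_charZero R
  have hss : ((s : ℤ) : ℚ) * ((s : ℤ) : ℚ) = 1 := by
    have := eta_sq s
    rwa [neg_mul_neg] at this
  have hssK : (((s : ℤ) : ℚ) : K) * (((s : ℤ) : ℚ) : K) = 1 := by exact_mod_cast hss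
  have hp : R.par X = (((s : ℤ) : ℚ) : K) • 𝟙 _ := by
    rw [KE.par R h]
    push_cast
    rfl
  refine Pool.Agent.N861.AF.asym_zero_of_nil R hU ((s : ℤ) : ℚ) hss (par_dual R hssK hp)
    fun n => ?_
  obtain ⟨t, ht⟩ := KE.tp s X h n
  obtain ⟨i⟩ := exists_dual_iso X n
  exact (homNil_dual R (KE.homNil R hU ht)).retract i.hom i.inv i.hom_inv_id

include R in
lemma KE.alg [HasBinaryBiproducts C] (hU : UnitQ C) (s : ℤˣ) (X : C) (f : End X) (h : KE s X) :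
    ∃ p : Polynomial ℚ, p ≠ 0 ∧ Polynomial.aeval f p = 0 := by
  have hc := R_charZero R
  have hfin := R.finite X
  have hss : ((s : ℤ) : K) * ((s : ℤ) : K) = 1 := by
    have := eta_sq s
    rw [neg_mul_neg] at this
    exact_mod_cast this
  let φ : Module.End K (R.H.obj X) := opHom R X f
  have htr : ∀ l : ℕ, ∃ q : ℚ, LinearMap.trace K (R.H.obj X) (φ ^ l) = (q : K) := by
    intro l
    refine ⟨((s : ℤ) : ℚ) * trq hU X (f ^ l), ?_⟩
    have h1 := real_tr R hU (((f ^ l : End X)) : X ⟶ X)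
    have h2 : (R.H.map ((f ^ l : End X) : X ⟶ X) ≫ R.par X).hom =
        ((s : ℤ) : K) • (φ ^ l) := by
      rw [KE.par R h, Linear.comp_smul, Category.comp_id, ModuleCat.hom_smul]
      congr 1
      exact map_pow (opHom R X) f l
    rw [h2, map_smul, smul_eq_mul] at h1
    push_cast
    have h3 : LinearMap.trace K (R.H.obj X) (φ ^ l) = ((s : ℤ) : K) * (((s : ℤ) : K) *
        LinearMap.trace K (R.H.obj X) (φ ^ l)) := by rw [← mul_assoc, hss, one_mul]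
    rw [h3, ← h1]
  obtain ⟨χ, hχ, hχ'⟩ := Pool.Agent.N190.Sd.exists_charpoly φ htr
  have h4 : opHom R X (Polynomial.aeval f χ) = 0 := by
    have h5 : opHom R X (Polynomial.aeval f χ) =
        Polynomial.eval₂ ((opHom R X).comp (algebraMap ℚ (End X))) (opHom R X f) χ :=
      Polynomial.hom_eval₂ χ (algebraMap ℚ (End X)) (opHom R X) f
    have h6 : (opHom R X).comp (algebraMap ℚ (End X)) =
        (algebraMap K (Module.End K (R.H.obj X))).comp (algebraMap ℚ K) := RingHom.ext_rat _ _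
    rw [h5, h6, ← Polynomial.eval₂_map, hχ']
    exact LinearMap.aeval_self_charpoly φ
  have h7 : R.H.map ((Polynomial.aeval f χ : End X) : X ⟶ X) = 0 := map_eq_zero h4
  obtain ⟨k, hk⟩ := KE.homNil R hU h _ h7
  refine ⟨χ ^ k, pow_ne_zero k hχ.ne_zero, ?_⟩
  rw [map_pow]
  exact hk

/-- **Theorem of Kimura.** The evenly and the oddly finite-dimensional objects are a tensor class. -/
theorem fdClass_kimura [HasBinaryBiproducts C] (hU : UnitQ C) : FDClass R (KE (C := C)) where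
  zero := KE.zero
  unit := KE.unit
  pure _ _ h := KE.par R h
  sum := KE.sum
  retract := KE.retract
  dual := KE.dual R hU
  tensor := KE.tensor
  alg := KE.alg R hU

end

end Run7.h199.FD
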