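import Pool.Agent.Run7.h199.FD.Fac

/-!
# The largest direct summand in the class
-/

set_option autoImplicit false
set_option linter.unusedSectionVars false

open CategoryTheory Limits MonoidalCategory
open Pool.Agent.Y112.SR Pool.Agent.Y112.KD Pool.Agent.R484.NC

namespace Run7.h199.FD

universe v u w

section

variable {C : Type u} [Category.{v} C] [Preadditive C] [Linear ℚ C] [MonoidalCategory C]
  [MonoidalPreadditive C] [MonoidalLinear ℚ C] [SymmetricCategory C] [RightRigidCategory C]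
  [HasBinaryBiproducts C] {K : Type w} [Field K]

variable {E : ℤˣ → C → Prop} {s t : ℤˣ} {M N : C} {R : SuperRealisation C K}

/-- The realisation of endomorphisms as a homomorphism of rings. -/
noncomputable def opHom (R : SuperRealisation C K) (L : C) : End L →+* Module.End K (R.H.obj L) where
  toFun f := op R (M := L) f
  map_one' := opI R L
  map_mul' f g := opC R (M := L) g f
  map_zero' := op_eq_zero (M := L) (R.H.map_zero L L)
  map_add' f g := opA R (M := L) f g

/-- A new direct summand from an endomorphism of an object of the class. -/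
lemma carve [IsIdempotentComplete C] (hE : FDClass R E) (a : Ret E t M) {L : C} (hL : E s L)
    (v : M ⟶ L) (u : L ⟶ M) : ∃ b : Ret E s M, b.i ≫ a.r = 0 ∧ a.i ≫ b.r = 0 ∧
      ∃ ε : End L, LinearMap.trace K (R.H.obj L) (opHom R L ε) = totalDim R b.P ∧
        opHom R L ε * opHom R L ε = opHom R L ε ∧
        IsNilpotent ((1 - opHom R L ε) * opHom R L (u ≫ (𝟙 M - a.e) ≫ v)) := by
  set d : M ⟶ M := 𝟙 M - a.e with hd
  have hdd : d ≫ d = d := by
    rw [hd, Preadditive.comp_sub, Preadditive.sub_comp, Preadditive.sub_comp, a.ee]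
    simp
  have hdr : d ≫ a.r = 0 := by
    rw [hd, Preadditive.sub_comp, Ret.e, Category.assoc, a.ir]
    simp
  have hid : a.i ≫ d = 0 := by
    rw [hd, Preadditive.comp_sub, Ret.e, reassoc_of% a.ir]
    simp
  let w : End L := u ≫ d ≫ v
  obtain ⟨p, hp, hpw⟩ := hE.alg s L w hL
  obtain ⟨g, hg1, hg2⟩ := exists_idem w p hp hpw
  set c : End L := Polynomial.aeval w g with hc
  have hcomm : w * c = c * w := by
    rw [hc]
    exact (Polynomial.aeval w g |> fun _ => by
      have h1 : Polynomial.aeval w (Polynomial.X * g) = Polynomial.aeval w (g * Polynomial.X) := by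
        rw [mul_comm]
      rw [map_mul, map_mul, Polynomial.aeval_X] at h1
      exact h1)
  obtain ⟨Y, j, q, h1, h2⟩ := IsIdempotentComplete.idempotents_split L (w * c : End L) hg1
  have hY : E s Y := hE.retract s L Y j q hL h1
  have hwc : w ≫ (c : L ⟶ L) = q ≫ j := by
    rw [h2]
    exact hcomm.symm
  have h3 : (j ≫ u ≫ d) ≫ (d ≫ v ≫ c ≫ q) = 𝟙 Y := by
    have h4 : u ≫ d ≫ d ≫ v = w := by
      rw [reassoc_of% hdd]
    have h5 : (j ≫ u ≫ d) ≫ (d ≫ v ≫ c ≫ q) = j ≫ (u ≫ d ≫ d ≫ v) ≫ c ≫ q := by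
      simp only [Category.assoc]
    rw [h5, h4, reassoc_of% hwc, reassoc_of% h1, h1]
  refine ⟨⟨Y, j ≫ u ≫ d, d ≫ v ≫ c ≫ q, hY, h3⟩, ?_, ?_, w * c, ?_, ?_, ?_⟩
  · simp only [Category.assoc, hdr, comp_zero]
  · simp only [reassoc_of% hid, zero_comp]
  · have h6 : opHom R L (w * c) = op R (q ≫ j) := by rw [h2]; rfl
    rw [h6]
    exact trace_retract j q h1
  · rw [← map_mul, hg1]
  · have h7 := hg2.map (opHom R L)
    rw [map_mul, map_sub, map_one] at h7
    exact h7

lemma isZero_exists [IsIdempotentComplete C] : ∃ Z : C, IsZero Z := by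
  obtain ⟨Y, j, q, h1, h2⟩ := IsIdempotentComplete.idempotents_split (𝟙_ C) 0 (by simp)
  refine ⟨Y, ?_⟩
  rw [IsZero.iff_id_eq_zero]
  have h3 : 𝟙 Y = j ≫ (q ≫ j) ≫ q := by
    rw [Category.assoc, h1, Category.comp_id, h1]
  rw [h3, h2]
  simp

/-- The largest direct summand in `E s`. -/
lemma exists_max [IsIdempotentComplete C] (hE : FDClass R E) (s : ℤˣ) (M : C) :
    ∃ a : Ret E s M, ∀ b : Ret E s M, totalDim R b.P ≤ totalDim R a.P := by
  classical
  let P : ℕ → Prop := fun n => ∃ a : Ret E s M, totalDim R a.P = n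
  obtain ⟨Z, hZ⟩ := isZero_exists (C := C)
  have h0 : ∃ n, P n := ⟨_, ⟨Z, 0, 0, hE.zero s Z hZ, by
    rw [comp_zero]; exact ((IsZero.iff_id_eq_zero Z).1 hZ).symm⟩, rfl⟩
  have hbd : ∀ a : Ret E s M, totalDim R a.P ≤ totalDim R M := by
    intro a
    have h1 := R.finite M
    have hc := R_charZero R
    have h2 := rank_op (R := R) a.ee
    rw [a.trace] at h2
    have h3 : Module.finrank K (LinearMap.range (op R a.e)) = totalDim R a.P := by exact_mod_cast h2
    rw [← h3]
    exact Submodule.finrank_le _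
  obtain ⟨n, hn⟩ := h0
  have hn' : n ≤ totalDim R M := by
    obtain ⟨a, rfl⟩ := hn
    exact hbd a
  obtain ⟨a, ha⟩ := Nat.findGreatest_spec (P := P) hn' hn
  refine ⟨a, fun b => ?_⟩
  rw [ha]
  exact Nat.le_findGreatest (hbd b) ⟨b, rfl⟩

/-- The sum of two complementary direct summands. -/
lemma add_ret (hE : FDClass R E) (a b : Ret E s M) (h1 : b.i ≫ a.r = 0) (h2 : a.i ≫ b.r = 0) :
    ∃ c : Ret E s M, totalDim R c.P = totalDim R a.P + totalDim R b.P := by
  have hc := R_charZero R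
  let c : Ret E s M := ⟨a.P ⊞ b.P, biprod.desc a.i b.i, biprod.lift a.r b.r, hE.sum s _ _ a.mem b.mem, by
    apply biprod.hom_ext
    · apply biprod.hom_ext'
      · simp [a.ir]
      · simp [h1]
    · apply biprod.hom_ext'
      · simp [h2]
      · simp [b.ir]⟩
  refine ⟨c, ?_⟩
  have h3 : LinearMap.trace K (R.H.obj M) (op R c.e) = totalDim R c.P := c.trace
  have h4 : c.e = a.e + b.e := by
    change biprod.lift a.r b.r ≫ biprod.desc a.i b.i = _
    rw [biprod.lift_desc]
    rfl
  rw [h4, opA, map_add, a.trace, b.trace] at h3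
  exact_mod_cast h3.symm

/-- Traces against the complement of the largest direct summand vanish. -/
lemma str_compl [IsIdempotentComplete C] (hE : FDClass R E) (a : Ret E s M)
    (ha : ∀ b : Ret E s M, totalDim R b.P ≤ totalDim R a.P) {f : M ⟶ M} (hf : Fac E s f) :
    str R (f ≫ (𝟙 M - a.e)) = 0 := by
  by_contra hne
  have hc := R_charZero R
  obtain ⟨L, hL, v, u, rfl⟩ := hf
  have h0 := R.finite L
  obtain ⟨b, h1, h2, ε, h3, h4, h5⟩ := carve hE a hL v u
  obtain ⟨c, hcd⟩ := add_ret hE a b h1 h2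
  have h6 := ha c
  have h7 : totalDim R b.P = 0 := by omega
  rw [h7, Nat.cast_zero] at h3
  have h8 : opHom R L ε = 0 := by
    have h9 := Pool.Agent.N536.HK.trace_idem h4
    rw [h3] at h9
    have h10 : Module.finrank K (LinearMap.range (opHom R L ε)) = 0 := by exact_mod_cast h9.symm
    exact LinearMap.range_eq_bot.1 (Submodule.finrank_eq_zero.1 h10)
  rw [h8, sub_zero, one_mul] at h5
  have h11 := (LinearMap.isNilpotent_trace_of_isNilpotent h5).eq_zero
  apply hne
  rw [Category.assoc, str_comm', Category.assoc, str_fac hE (s := s) ⟨L, hL, u ≫ (𝟙 M - a.e) ≫ v, 𝟙 L, by simp⟩]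
  rw [show LinearMap.trace K (R.H.obj L) (op R (u ≫ (𝟙 M - a.e) ≫ v)) = 0 from h11, mul_zero]

/-- The largest direct summand. -/
lemma exists_part [IsIdempotentComplete C] (hE : FDClass R E) (M : C) : ∃ p : Part E M,
    (∀ b : Ret E 1 M, totalDim R b.P ≤ totalDim R p.ev.P) ∧
    (∀ b : Ret E (-1) M, totalDim R b.P ≤ totalDim R p.od.P) := by
  have hc := R_charZero R
  obtain ⟨a, ha⟩ := exists_max hE 1 M
  obtain ⟨b, hb⟩ := exists_max hE (-1) M
  have h0 := R.finite b.P
  obtain ⟨c, h1, h2, ε, h3, h4, h5⟩ := carve hE a b.mem b.r b.i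
  refine ⟨⟨a, c, h2, h1⟩, ha, fun d => (hb d).trans (le_of_eq ?_)⟩
  have h6 : R.H.map (b.i ≫ a.r) = 0 := Fac.orth hE b.fac_i a.fac_r (by decide)
  have h7 : opHom R b.P (b.i ≫ (𝟙 M - a.e) ≫ b.r) = 1 := by
    have h8 : b.i ≫ (𝟙 M - a.e) ≫ b.r = 𝟙 _ - (b.i ≫ a.r) ≫ a.i ≫ b.r := by
      rw [Preadditive.sub_comp, Preadditive.comp_sub, Category.id_comp, b.ir, Ret.e]
      simp only [Category.assoc]
    change op R (b.i ≫ (𝟙 M - a.e) ≫ b.r) = 1
    rw [h8, opS, opI, op_eq_zero (f := (b.i ≫ a.r) ≫ a.i ≫ b.r), sub_zero]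
    rw [Functor.map_comp, h6, zero_comp]
  rw [h7, mul_one] at h5
  have h9 : (1 - opHom R b.P ε) * (1 - opHom R b.P ε) = 1 - opHom R b.P ε :=
    Pool.Agent.N536.HK.idem_compl h4
  have h10 : 1 - opHom R b.P ε = 0 := by
    obtain ⟨n, hn⟩ := h5
    have h11 : ∀ m : ℕ, (1 - opHom R b.P ε) ^ (m + 1) = 1 - opHom R b.P ε := by
      intro m
      induction m with
      | zero => rw [zero_add, pow_one]
      | succ m ih => rw [pow_succ, ih, h9]
    rw [← h11 n, pow_succ, hn, zero_mul]
  rw [sub_eq_zero] at h10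
  rw [← h10, LinearMap.trace_one] at h3
  have h12 : totalDim R b.P = totalDim R c.P := by exact_mod_cast h3
  exact h12

end

end Run7.h199.FD
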