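import Pool.Agent.Run7.h199.FD.Max

/-!
# The largest direct summand of a tensor product
-/

set_option autoImplicit false
set_option linter.unusedSectionVars false

open CategoryTheory Limits MonoidalCategory
open Pool.Agent.Y112.SR Pool.Agent.Y112.KD Pool.Agent.R484.NC

namespace Run7.h199.FD

universe v u w

section

variable {C : Type u} [Category.{v} C] [Preadditive C] [Linear ℚ C] [MonoidalCategory C]
  [MonoidalPreadditive C] [MonoidalLinear ℚ C] [SymmetricCategory C] [RightRigidCategory C]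
  [HasBinaryBiproducts C] {K : Type w} [Field K]

variable {E : ℤˣ → C → Prop} {s t : ℤˣ} {M N : C} {R : SuperRealisation C K}

/-- A direct summand whose two parts have the largest dimensions. -/
def Part.Max (R : SuperRealisation C K) (p : Part E M) : Prop :=
  (∀ b : Ret E 1 M, totalDim R b.P ≤ totalDim R p.ev.P) ∧
    ∀ b : Ret E (-1) M, totalDim R b.P ≤ totalDim R p.od.P

lemma Part.Max.isGreatest {p : Part E M} (hp : p.Max R) :
    IsGreatest {d | ∃ p : Part E M, p.dim R = d} (p.dim R) := by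
  refine ⟨⟨p, rfl⟩, ?_⟩
  rintro d ⟨q, rfl⟩
  exact Nat.add_le_add (hp.1 q.ev) (hp.2 q.od)

lemma Part.Max.cdim {p : Part E M} (hp : p.Max R) : cdim R E M = p.dim R :=
  hp.isGreatest.csSup_eq

lemma str_zero_of_map {f : M ⟶ M} (h : R.H.map f = 0) : str R f = 0 := by
  rw [str, h, zero_comp]
  exact map_zero _

lemma ctr_zero_of_str (hU : UnitQ C) {f : M ⟶ M} (h : str R f = 0) : ctr hU f = 0 := by
  have hc := R_charZero R
  rw [← ctr_eq R hU] at h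
  exact_mod_cast h

lemma str_zero_of_ctr (hU : UnitQ C) {f : M ⟶ M} (h : ctr hU f = 0) : str R f = 0 := by
  rw [← ctr_eq R hU, h, Rat.cast_zero]

lemma zero_compl [IsIdempotentComplete C] (hU : UnitQ C) (hE : FDClass R E) {p : Part E N}
    (hp : p.Max R) {y : N ⟶ N} (hy : Fac E s y) : ctr hU (y ≫ (𝟙 N - p.e)) = 0 := by
  rcases Int.units_eq_one_or s with rfl | rfl
  · have h1 : y ≫ (𝟙 N - p.e) = y ≫ (𝟙 N - p.ev.e) - y ≫ p.od.e := by
      rw [Part.e, ← Preadditive.comp_sub, sub_sub]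
    rw [h1, ctr_sub, ctr_zero_of_str hU (str_compl hE p.ev hp.1 hy),
      ctr_zero_of_str hU (str_zero_of_map (Fac.orth hE hy p.od.fac (by decide))), sub_zero]
  · have h1 : y ≫ (𝟙 N - p.e) = y ≫ (𝟙 N - p.od.e) - y ≫ p.ev.e := by
      rw [Part.e, ← Preadditive.comp_sub, sub_sub, add_comm]
    rw [h1, ctr_sub, ctr_zero_of_str hU (str_compl hE p.od hp.2 hy),
      ctr_zero_of_str hU (str_zero_of_map (Fac.orth hE hy p.ev.fac (by decide))), sub_zero]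

/-- The partial trace of a morphism which factors through an object of the class. -/
lemma fac_ptr (hU : UnitQ C) (hE : FDClass R E) (a : Ret E t M) {x : N ⊗ M ⟶ N ⊗ M}
    (hx : Fac E s x) : ∃ y : N ⟶ N, Fac E (s * t) y ∧
      ∀ g : N ⟶ N, ctr hU (x ≫ (g ⊗ₘ a.e)) = ctr hU (y ≫ g) := by
  obtain ⟨L, hL, v, u, rfl⟩ := hx
  refine ⟨ptr (((N ◁ a.i) ≫ v) ≫ (u ≫ (N ◁ a.r))), ?_, fun g => ?_⟩
  · refine ⟨L ⊗ (a.P)ᘁ, hE.tensor s t _ _ hL (hE.dual t _ a.mem), (ρ_ N).inv ≫ N ◁ η_ a.P a.Pᘁ ≫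
      (α_ N a.P a.Pᘁ).inv ≫ ((N ◁ a.i) ≫ v) ▷ a.Pᘁ, (u ≫ (N ◁ a.r)) ▷ a.Pᘁ ≫ (α_ N a.P a.Pᘁ).hom ≫
      N ◁ ((β_ a.P a.Pᘁ).hom ≫ ε_ a.P a.Pᘁ) ≫ (ρ_ N).hom, ?_⟩
    simp only [ptr, comp_whiskerRight, Category.assoc]
  · have h1 : (g ⊗ₘ a.e) = (N ◁ a.r) ≫ (g ▷ a.P) ≫ (N ◁ a.i) := by
      rw [Ret.e, MonoidalCategory.tensorHom_def', MonoidalCategory.whiskerLeft_comp]
      rw [Category.assoc, whisker_exchange]
    have h2 : ctr hU ((v ≫ u) ≫ (g ⊗ₘ a.e)) = ctr hU (((v ≫ u) ≫ (N ◁ a.r) ≫ (g ▷ a.P)) ≫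
        (N ◁ a.i)) := by
      rw [h1]
      simp only [Category.assoc]
    have h3 : (N ◁ a.i) ≫ ((v ≫ u) ≫ (N ◁ a.r) ≫ (g ▷ a.P)) =
        (((N ◁ a.i) ≫ v) ≫ (u ≫ (N ◁ a.r))) ≫ g ▷ a.P := by
      simp only [Category.assoc]
    rw [h2, ctr_comm R, h3, ← ptr_comp_right]
    exact (trq_ptr R hU _).symm

lemma fac_ptr' (hU : UnitQ C) (hE : FDClass R E) (a : Ret E t M) {x : M ⊗ N ⟶ M ⊗ N}
    (hx : Fac E s x) : ∃ y : N ⟶ N, Fac E (s * t) y ∧
      ∀ g : N ⟶ N, ctr hU (x ≫ (a.e ⊗ₘ g)) = ctr hU (y ≫ g) := by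
  obtain ⟨y, hy, h⟩ := fac_ptr hU hE a (x := (β_ N M).hom ≫ x ≫ (β_ M N).hom)
    ((hx.comp_right _).comp_left _)
  refine ⟨y, hy, fun g => ?_⟩
  rw [← h]
  have h1 : ((β_ N M).hom ≫ x ≫ (β_ M N).hom) ≫ (g ⊗ₘ a.e) =
      (β_ N M).hom ≫ (x ≫ (a.e ⊗ₘ g) ≫ (β_ M N).hom) := by
    simp only [Category.assoc]
    rw [BraidedCategory.braiding_naturality]
  rw [h1, ctr_comm R hU (β_ N M).hom]
  have h2 : (x ≫ (a.e ⊗ₘ g) ≫ (β_ M N).hom) ≫ (β_ N M).hom = x ≫ (a.e ⊗ₘ g) := by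
    simp only [Category.assoc]
    rw [SymmetricCategory.symmetry, Category.comp_id]
  rw [h2]

/-- The element which has trace zero against all morphisms through the class. -/
def cross {E : ℤˣ → C → Prop} {M N : C} (p : Part E M) (q : Part E N) : M ⊗ N ⟶ M ⊗ N :=
  (p.e ⊗ₘ (𝟙 N - q.e)) + ((𝟙 M - p.e) ⊗ₘ q.e)

lemma tensor_add_left {a b : M ⟶ M} {c : N ⟶ N} : ((a + b) ⊗ₘ c) = (a ⊗ₘ c) + (b ⊗ₘ c) := by
  rw [MonoidalPreadditive.add_tensor]

lemma tensor_add_right {a : M ⟶ M} {b c : N ⟶ N} : (a ⊗ₘ (b + c)) = (a ⊗ₘ b) + (a ⊗ₘ c) := by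
  rw [MonoidalPreadditive.tensor_add]

lemma ctr_cross [IsIdempotentComplete C] (hU : UnitQ C) (hE : FDClass R E) {p : Part E M}
    {q : Part E N} (hp : p.Max R) (hq : q.Max R) {x : M ⊗ N ⟶ M ⊗ N} (hx : Fac E s x) :
    ctr hU (x ≫ cross p q) = 0 := by
  have h1 : ∀ (t : ℤˣ) (a : Ret E t M), ctr hU (x ≫ (a.e ⊗ₘ (𝟙 N - q.e))) = 0 := by
    intro t a
    obtain ⟨y, hy, h⟩ := fac_ptr' hU hE a hx
    rw [h]
    exact zero_compl hU hE hq hy
  have h2 : ∀ (t : ℤˣ) (a : Ret E t N), ctr hU (x ≫ ((𝟙 M - p.e) ⊗ₘ a.e)) = 0 := by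
    intro t a
    obtain ⟨y, hy, h⟩ := fac_ptr hU hE a hx
    rw [h]
    exact zero_compl hU hE hp hy
  have h3 : x ≫ cross p q = (x ≫ (p.ev.e ⊗ₘ (𝟙 N - q.e)) + x ≫ (p.od.e ⊗ₘ (𝟙 N - q.e))) +
      (x ≫ ((𝟙 M - p.e) ⊗ₘ q.ev.e) + x ≫ ((𝟙 M - p.e) ⊗ₘ q.od.e)) := by
    rw [cross, Preadditive.comp_add]
    conv_lhs => rw [Part.e, tensor_add_left, Preadditive.comp_add]
    congr 1
    conv_lhs => rw [show q.e = q.ev.e + q.od.e from rfl, tensor_add_right, Preadditive.comp_add]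
    rfl
  rw [h3, ctr_add, ctr_add, ctr_add, h1, h1, h2, h2]
  norm_num

/-- The bound for the dimensions. -/
lemma dim_le_cross [IsIdempotentComplete C] (hU : UnitQ C) (hE : FDClass R E) {p : Part E M}
    {q : Part E N} (hp : p.Max R) (hq : q.Max R) (g : Part E (M ⊗ N)) :
    g.dim R ≤ Module.finrank K (LinearMap.range (1 - op R (cross p q))) := by
  have hc := R_charZero R
  have h0 := R.finite (M ⊗ N)
  rw [← g.rank]
  apply Pool.Agent.N536.HK.rank_le_of_nilpotent (op_idem g.ee)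
  apply Pool.Agent.H914.isNilpotent_of_trace_pow
  intro r
  have h1 : (op R (cross p q) * op R g.e) ^ (r + 1) =
      op R (g.ev.e ≫ cross p q ≫ pw (g.e ≫ cross p q) r) +
        op R (g.od.e ≫ cross p q ≫ pw (g.e ≫ cross p q) r) := by
    rw [← opC, ← op_pw, ← opA]
    congr 1
    rw [← Preadditive.add_comp]
    change (g.e ≫ cross p q) ≫ _ = _
    rw [Category.assoc]
    rfl
  have h2 : ∀ (t : ℤˣ) (a : Ret E t (M ⊗ N)), LinearMap.trace K (R.H.obj (M ⊗ N))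
      (op R (a.e ≫ cross p q ≫ pw (g.e ≫ cross p q) r)) = 0 := by
    intro t a
    apply trace_zero_of_str hE (a.fac.comp_right _)
    apply str_zero_of_ctr hU
    have h3 : ctr hU (a.e ≫ cross p q ≫ pw (g.e ≫ cross p q) r) =
        ctr hU ((pw (g.e ≫ cross p q) r ≫ a.e) ≫ cross p q) := by
      rw [← Category.assoc, ctr_comm R, Category.assoc]
    rw [h3]
    exact ctr_cross hU hE hp hq (a.fac.comp_left _)
  rw [h1, map_add, h2, h2, add_zero]

lemma trace_op_tensor (f : M ⟶ M) (g : N ⟶ N) : LinearMap.trace K (R.H.obj (M ⊗ N)) (op R (f ⊗ₘ g)) =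
    LinearMap.trace K (R.H.obj M) (op R f) * LinearMap.trace K (R.H.obj N) (op R g) := by
  have h0 := R.finite M
  have h1 := R.finite N
  have h2 := R.finite (M ⊗ N)
  have h3 : Module.Finite K ↑(R.H.obj M ⊗ R.H.obj N) :=
    inferInstanceAs (Module.Finite K (TensorProduct K (R.H.obj M) (R.H.obj N)))
  rw [op, Functor.Monoidal.map_tensor, ModuleCat.hom_comp]
  have e2 := LinearMap.trace_comp_comm' (R := K) (Functor.OplaxMonoidal.δ R.H M N).hom
      ((R.H.map f ⊗ₘ R.H.map g) ≫ Functor.LaxMonoidal.μ R.H M N).hom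
  refine e2.trans ?_
  rw [← ModuleCat.hom_comp, Category.assoc, Functor.Monoidal.μ_δ, Category.comp_id]
  exact LinearMap.trace_tensorProduct' _ _

lemma totalDim_tensor (M N : C) : totalDim R (M ⊗ N) = totalDim R M * totalDim R N := by
  have hc := R_charZero R
  have h0 := R.finite M
  have h1 := R.finite N
  have h2 := R.finite (M ⊗ N)
  have h3 := trace_op_tensor (R := R) (𝟙 M) (𝟙 N)
  rw [MonoidalCategory.id_tensorHom_id, opI, opI, opI, LinearMap.trace_one, LinearMap.trace_one,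
    LinearMap.trace_one] at h3
  exact_mod_cast h3

lemma totalDim_unit : totalDim R (𝟙_ C) = 1 := by
  have h1 : (R.H.obj (𝟙_ C)) ≅ 𝟙_ (ModuleCat.{w} K) := (Functor.Monoidal.εIso R.H).symm
  rw [totalDim, LinearEquiv.finrank_eq h1.toLinearEquiv]
  exact Module.finrank_self K

/-- **The tensor product.** -/
theorem cdim_tensor_le [IsIdempotentComplete C] (hU : UnitQ C) (hE : FDClass R E) (M N : C) :
    cdim R E (M ⊗ N) ≤ cdim R E M * cdim R E N +
      (totalDim R M - cdim R E M) * (totalDim R N - cdim R E N) := by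
  have hc := R_charZero R
  have h0 := R.finite M
  have h0' := R.finite N
  obtain ⟨p, hp⟩ := exists_part hE M
  obtain ⟨q, hq⟩ := exists_part hE N
  obtain ⟨g, hg⟩ := exists_part hE (M ⊗ N)
  have h1 : cdim R E M = p.dim R := Part.Max.cdim hp
  have h2 : cdim R E N = q.dim R := Part.Max.cdim hq
  have h3 : cdim R E (M ⊗ N) = g.dim R := Part.Max.cdim hg
  rw [h1, h2, h3]
  refine (dim_le_cross hU hE hp hq g).trans (le_of_eq ?_)
  have h4 : 1 - op R (cross p q) = op R ((p.e ⊗ₘ q.e) + ((𝟙 M - p.e) ⊗ₘ (𝟙 N - q.e))) := by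
    rw [← opI R (M ⊗ N), ← opS]
    congr 1
    have h5 : 𝟙 (M ⊗ N) = ((p.e + (𝟙 M - p.e)) ⊗ₘ (q.e + (𝟙 N - q.e))) := by
      rw [add_sub_cancel, add_sub_cancel, MonoidalCategory.id_tensorHom_id]
    rw [h5, tensor_add_left, tensor_add_right, tensor_add_right, cross]
    abel
  have hp1 : p.e ≫ (𝟙 M - p.e) = 0 := by rw [Preadditive.comp_sub, p.ee, Category.comp_id, sub_self]
  have hp2 : (𝟙 M - p.e) ≫ p.e = 0 := by rw [Preadditive.sub_comp, p.ee, Category.id_comp, sub_self]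
  have hq1 : q.e ≫ (𝟙 N - q.e) = 0 := by rw [Preadditive.comp_sub, q.ee, Category.comp_id, sub_self]
  have hp3 : (𝟙 M - p.e) ≫ (𝟙 M - p.e) = 𝟙 M - p.e := by
    rw [Preadditive.comp_sub, hp2, sub_zero, Category.comp_id]
  have hq2 : (𝟙 N - q.e) ≫ q.e = 0 := by rw [Preadditive.sub_comp, q.ee, Category.id_comp, sub_self]
  have hq3 : (𝟙 N - q.e) ≫ (𝟙 N - q.e) = 𝟙 N - q.e := by
    rw [Preadditive.comp_sub, hq2, sub_zero, Category.comp_id]
  have h6 : ((p.e ⊗ₘ q.e) + ((𝟙 M - p.e) ⊗ₘ (𝟙 N - q.e))) ≫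
      ((p.e ⊗ₘ q.e) + ((𝟙 M - p.e) ⊗ₘ (𝟙 N - q.e))) =
      ((p.e ⊗ₘ q.e) + ((𝟙 M - p.e) ⊗ₘ (𝟙 N - q.e))) := by
    simp only [Preadditive.comp_add, Preadditive.add_comp, MonoidalCategory.tensorHom_comp_tensorHom,
      p.ee, q.ee, hp1, hp2, hp3, hq1, hq2, hq3]
    simp
  have h7 := rank_op (R := R) h6
  rw [← h4] at h7
  have h8 : LinearMap.trace K (R.H.obj (M ⊗ N)) (1 - op R (cross p q)) =
      ((p.dim R * q.dim R + (totalDim R M - p.dim R) * (totalDim R N - q.dim R) : ℕ) : K) := by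
    rw [h4, opA, map_add, trace_op_tensor, trace_op_tensor, p.trace, q.trace, opS, opS, map_sub,
      map_sub, p.trace, q.trace, opI, opI, LinearMap.trace_one, LinearMap.trace_one]
    push_cast [Nat.cast_sub p.dim_le, Nat.cast_sub q.dim_le]
    rfl
  rw [h8] at h7
  exact_mod_cast h7

end

end Run7.h199.FD
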